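import Pool.Agent.Lib.SVU.Defs

/-!
# SVU.Bridge: every edge of a minimal non-colourable graph lies in a face

Suppose that no member contains `s(a, b)`.  The function `c e = 1` if `e = s(a, b)` and `0`
otherwise has sum zero on all members, so by `Fam.dual` there is `y` with `c s(x, z) = y x + y z` on
the edges inside `W`.  Let `W₀ = {v ∈ W, y v = y a}` and `W₁ = {v ∈ W, y v ≠ y a}`; `a ∈ W₀`,
`b ∈ W₁` (`y a + y b = 1`), so both are proper subsets of `W`; take colourings `φ₀`, `φ₁`
(`Min.col`).  Choose a permutation `π` of the seven colours such that `π (φ₁ b)` is disjoint from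
`φ₀ a`.  Then `φ₀` on `W₀` and `π ∘ φ₁` (`Finset.map` / `image`) on `W₁` is a colouring of `W`:
the only edge between `W₀` and `W₁` is `s(a, b)` (in `ZMod 2`).  This contradicts `Min.not_col`.
-/

set_option autoImplicit false
set_option linter.unusedSectionVars false

namespace Pool.Agent.Lib.SVU

open Finset Pool.Agent.Lib.SVT

variable {V : Type*} [Fintype V] [DecidableEq V] {G : SimpleGraph V} {W : Finset V}
variable {𝓕 : Finset (Finset (Sym2 V))}

namespace BridgeAux

lemma exists_perm {A C : Finset (Fin 7)} (h : A.card = C.card) :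
    ∃ σ : Equiv.Perm (Fin 7), A.map σ.toEmbedding = C := by
  classical
  let e : {x // x ∈ A} ≃ {x // x ∈ C} := Finset.equivOfCardEq h
  refine ⟨e.extendSubtype, ?_⟩
  refine Finset.eq_of_subset_of_card_le ?_ ?_
  · intro x hx
    rw [Finset.mem_map] at hx
    obtain ⟨y, hy, rfl⟩ := hx
    exact e.extendSubtype_mem y hy
  · rw [Finset.card_map, h]

lemma zmod2_cases (x y : ZMod 2) (h : x + y = 0) : x = y := by
  revert x y
  decide

end BridgeAux

open BridgeAux

theorem cover (hm : Min G W) (hF : Fam G W 𝓕) {a b : V} (h : s(a, b) ∈ edg G W) :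
    ∃ F ∈ 𝓕, s(a, b) ∈ F := by
  classical
  by_contra hcon
  push Not at hcon
  obtain ⟨hab, haW, hbW⟩ := mem_edg'.1 h
  obtain ⟨y, hy⟩ := hF.dual (fun e => if e = s(a, b) then 1 else 0) (by
    intro F hFF
    refine Finset.sum_eq_zero fun e he => if_neg ?_
    rintro rfl
    exact hcon F hFF he)
  have hyab : y a + y b = 1 := by
    rw [← hy a b h, if_pos rfl]
  have hne : y b ≠ y a := by
    intro he
    rw [he, CharTwo.add_self_eq_zero] at hyab
    exact zero_ne_one hyab
  have hedge : ∀ u v, G.Adj u v → u ∈ W → v ∈ W → y u = y a → y v ≠ y a → u = a ∧ v = b := by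
    intro u v huv hu hv h1 h2
    have h3 := hy u v (mem_edg'.2 ⟨huv, hu, hv⟩)
    by_cases h4 : s(u, v) = s(a, b)
    · rcases Sym2.eq_iff.1 h4 with h5 | ⟨h5, h6⟩
      · exact h5
      · rw [h5] at h1
        exact absurd h1 hne
    · simp only [if_neg h4] at h3
      have h5 := zmod2_cases _ _ h3.symm
      rw [h1] at h5
      exact absurd h5.symm h2
  obtain ⟨φ₀, hφ₀, hφ₀'⟩ := hm.col (W.filter fun v => y v = y a) (by
    rw [Finset.ssubset_iff_of_subset (Finset.filter_subset _ _)]
    exact ⟨b, hbW, fun hb => hne (Finset.mem_filter.1 hb).2⟩)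
  obtain ⟨φ₁, hφ₁, hφ₁'⟩ := hm.col (W.filter fun v => y v ≠ y a) (by
    rw [Finset.ssubset_iff_of_subset (Finset.filter_subset _ _)]
    exact ⟨a, haW, fun ha => (Finset.mem_filter.1 ha).2 rfl⟩)
  have hca : (φ₀ a).card = 2 := hφ₀ a (Finset.mem_filter.2 ⟨haW, rfl⟩)
  have hcb : (φ₁ b).card = 2 := hφ₁ b (Finset.mem_filter.2 ⟨hbW, hne⟩)
  obtain ⟨C, hC, hCc⟩ := Finset.exists_subset_card_eq (s := (φ₀ a)ᶜ) (n := 2) (by
    rw [Finset.card_compl, Fintype.card_fin]
    omega)
  obtain ⟨σ, hσ⟩ := exists_perm (A := φ₁ b) (C := C) (by rw [hcb, hCc])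
  have hdis : Disjoint (φ₀ a) ((φ₁ b).map σ.toEmbedding) := by
    rw [hσ, Finset.disjoint_right]
    intro x hx
    exact Finset.mem_compl.1 (hC hx)
  apply hm.not_col
  refine ⟨fun v => if y v = y a then φ₀ v else (φ₁ v).map σ.toEmbedding, fun v hv => ?_,
    fun u hu v hv huv => ?_⟩
  · by_cases h1 : y v = y a
    · simp only [if_pos h1]
      exact hφ₀ v (Finset.mem_filter.2 ⟨hv, h1⟩)
    · simp only [if_neg h1]
      rw [Finset.card_map]
      exact hφ₁ v (Finset.mem_filter.2 ⟨hv, h1⟩)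
  · by_cases h1 : y u = y a
    · by_cases h2 : y v = y a
      · simp only [if_pos h1, if_pos h2]
        exact hφ₀' u (Finset.mem_filter.2 ⟨hu, h1⟩) v (Finset.mem_filter.2 ⟨hv, h2⟩) huv
      · simp only [if_pos h1, if_neg h2]
        obtain ⟨rfl, rfl⟩ := hedge u v huv hu hv h1 h2
        exact hdis
    · by_cases h2 : y v = y a
      · simp only [if_neg h1, if_pos h2]
        obtain ⟨rfl, rfl⟩ := hedge v u huv.symm hv hu h2 h1
        exact hdis.symm
      · simp only [if_neg h1, if_neg h2]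
        rw [Finset.disjoint_map]
        exact hφ₁' u (Finset.mem_filter.2 ⟨hu, h1⟩) v (Finset.mem_filter.2 ⟨hv, h2⟩) huv

end Pool.Agent.Lib.SVU
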