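import Mathlib

/-!
# SVU.Comb: a (7:2)-colouring and a 4-colouring give (a:b)-colourings for all a/b ≥ 7/2

`b = 2 i + e`, `e ≤ 1`; `X = (Fin 7 × Fin i) ⊕ (Fin 4 × Fin e)` has `7 i + 4 e ≤ a` elements
(`7 (2 i + e) ≤ 2 a`), so there is an embedding `X ↪ Fin a`; `Φ v` is the image of
`(φ v ×ˢ univ).disjSum ({ψ v} ×ˢ univ)`.
-/

set_option autoImplicit false

namespace Pool.Agent.Lib.SVU

open Finset in
theorem comb {V : Type*} {G : SimpleGraph V} (φ : V → Finset (Fin 7)) (hφ : ∀ v, (φ v).card = 2)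
    (hd : ∀ u v, G.Adj u v → Disjoint (φ u) (φ v)) (ψ : V → Fin 4)
    (hψ : ∀ u v, G.Adj u v → ψ u ≠ ψ v) {a b : ℕ} (h : 7 * b ≤ 2 * a) :
    ∃ Φ : V → Finset (Fin a), (∀ v, (Φ v).card = b) ∧ ∀ u v, G.Adj u v → Disjoint (Φ u) (Φ v) := by
  classical
  obtain ⟨i, e, he, hb⟩ : ∃ i e : ℕ, e ≤ 1 ∧ b = 2 * i + e :=
    ⟨b / 2, b % 2, by omega, by omega⟩
  subst hb
  have hcard : Fintype.card ((Fin 7 × Fin i) ⊕ (Fin 4 × Fin e)) ≤ Fintype.card (Fin a) := by
    simp only [Fintype.card_sum, Fintype.card_prod, Fintype.card_fin]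
    omega
  obtain ⟨f⟩ := Function.Embedding.nonempty_of_card_le hcard
  refine ⟨fun v => ((φ v ×ˢ (univ : Finset (Fin i))).disjSum
    (({ψ v} : Finset (Fin 4)) ×ˢ (univ : Finset (Fin e)))).map f, ?_, ?_⟩
  · intro v
    rw [card_map, card_disjSum, card_product, card_product, hφ v, card_univ, card_univ,
      card_singleton, Fintype.card_fin, Fintype.card_fin, one_mul]
  · intro u v huv
    rw [disjoint_map, disjoint_left]
    rintro (⟨x, y⟩ | ⟨x, y⟩) h1 h2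
    · rw [inl_mem_disjSum, mem_product] at h1 h2
      exact (disjoint_left.mp (hd u v huv)) h1.1 h2.1
    · rw [inr_mem_disjSum, mem_product, mem_singleton] at h1 h2
      exact hψ u v huv (h1.1.symm.trans h2.1)

end Pool.Agent.Lib.SVU
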