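import Pool.Agent.Lib.SVU.Cyc6
import Pool.Agent.Lib.SVT.Count

/-!
# SVU.Count6: the family of faces and the sum of the charges

Take `𝓕` from `ML.min_family` for `edg G W` (`ML.mono`, as in `SVT.charge_neg`, SVT/Count.lean), so
`Fam G W 𝓕` by `circuit6` (`sub`, `ev`, `two`, `size`, `dual`).
Let `S = edg G W`, `n = |W|`, for an edge `e` let `cov e` be the number of members through `e`
(`≤ 2`), `l e = (low 𝓕 e).card`, and let `τ` be the number of members with at most 6 elements which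
are triangles (`≤ (tris G W).card`, as in `SVT.charge_neg`).  For a member `F`:
`7 (|F| - 6) ≥ |F|` if `|F| ≥ 7`, `= -21` for a triangle, `= 0` if `|F| = 6`.
So `7 ∑_F |F| - 42 |𝓕| ≥ ∑_{F, |F| ≥ 7} |F| - 21 τ`.  Double counting: `∑_F |F| = ∑_{e ∈ S} cov e`,
`∑_{|F| ≥ 7} |F| = ∑_{e ∈ S} (cov e - l e)`.  Hence `∑_e (2 - l e) = 2 |S| - ∑ cov + ∑ (cov - l) ≤
2 |S| + 6 ∑ cov - 42 |𝓕| + 21 τ ≤ 14 |S| - 42 |𝓕| + 21 τ`, and `|S| + 1 ≤ n + |𝓕|`
(`card_le_family`), so `∑_{e ∈ S} (2 - l e) ≤ -28 |S| + 42 n - 42 + 21 |tris|`.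
Finally `∑_{v ∈ W} hh v = 2 ∑_{e ∈ S} (2 - l e)` (every edge has two ends in `W`; the edges at `v`
are `s(v, u)`, `u ∈ nb G W v`), `∑_v |nb v| = 2 |S|` (`sum_nb`), `∑_v |tr v| = 3 |tris|` (`sum_tr`),
so `∑_v cg v = 56 |S| - 42 |tris| - 84 n + 2 ∑_e (2 - l e) ≤ -84`.
-/

set_option autoImplicit false
set_option linter.unusedSectionVars false

namespace Pool.Agent.Lib.SVU

open Finset Pool.Agent.Lib.SVT

variable {V : Type*} [Fintype V] [DecidableEq V] {G : SimpleGraph V} {W : Finset V}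

namespace Count6Aux

/-- the sum over the edges at the vertices -/
lemma sum_edges (G : SimpleGraph V) (W : Finset V) (f : Sym2 V → ℤ) :
    ∑ v ∈ W, ∑ u ∈ nb G W v, f s(v, u) = 2 * ∑ e ∈ edg G W, f e := by
  classical
  have h1 : ∀ v ∈ W, ∑ u ∈ nb G W v, f s(v, u) =
      ∑ e ∈ edg G W, if v ∈ e then f e else 0 := by
    intro v hv
    rw [← Finset.sum_filter]
    refine Finset.sum_bij (fun u _ => s(v, u)) ?_ ?_ ?_ ?_
    · intro u hu
      rw [mem_nb] at hu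
      rw [mem_filter, mem_edg']
      exact ⟨⟨hu.2, hv, hu.1⟩, Sym2.mem_mk_left v u⟩
    · intro u hu u' hu' h
      exact Sym2.congr_right.1 h
    · intro e he
      rw [mem_filter] at he
      obtain ⟨u, rfl⟩ := Sym2.mem_iff_exists.1 he.2
      have h1 := mem_edg'.1 he.1
      exact ⟨u, mem_nb.2 ⟨h1.2.2, h1.1⟩, rfl⟩
    · intro u hu
      rfl
  rw [Finset.sum_congr rfl h1, Finset.sum_comm, Finset.mul_sum]
  refine Finset.sum_congr rfl fun e he => ?_
  induction e with | _ a b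
  have h3 := mem_edg'.1 he
  rw [← Finset.sum_filter, Finset.sum_const]
  have h4 : W.filter (fun v => v ∈ s(a, b)) = {a, b} := by
    ext x
    rw [mem_filter, Sym2.mem_iff, mem_insert, mem_singleton]
    constructor
    · exact fun h => h.2
    · rintro (rfl | rfl)
      · exact ⟨h3.2.1, Or.inl rfl⟩
      · exact ⟨h3.2.2, Or.inr rfl⟩
  rw [h4, Finset.card_pair h3.1.ne, nsmul_eq_mul]
  norm_num

/-- double counting for a subfamily -/
lemma sum_card_eq {S : Finset (Sym2 V)} {𝓐 : Finset (Finset (Sym2 V))} (hF : ∀ F ∈ 𝓐, F ⊆ S) :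
    ∑ F ∈ 𝓐, F.card = ∑ e ∈ S, (𝓐.filter (fun F => e ∈ F)).card := by
  classical
  have h1 : ∑ F ∈ 𝓐, F.card =
      ∑ F ∈ 𝓐, (S.bipartiteBelow (fun (e : Sym2 V) (F : Finset (Sym2 V)) => e ∈ F) F).card := by
    refine Finset.sum_congr rfl (fun F hF' => ?_)
    congr 1
    ext e
    rw [Finset.mem_bipartiteBelow]
    exact ⟨fun h => ⟨hF F hF' h, h⟩, fun h => h.2⟩
  rw [h1, ← Finset.sum_card_bipartiteAbove_eq_sum_card_bipartiteBelow]
  rfl

lemma cov_split (𝓕 : Finset (Finset (Sym2 V))) (e : Sym2 V) :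
    ((𝓕.filter (fun F => 7 ≤ F.card)).filter (fun F => e ∈ F)).card + (low 𝓕 e).card =
      (𝓕.filter (fun F => e ∈ F)).card := by
  classical
  have h1 : low 𝓕 e = (𝓕.filter (fun F => e ∈ F)).filter (fun F => ¬ 7 ≤ F.card) := by
    ext F
    rw [mem_low, mem_filter, mem_filter, not_le]
    constructor
    · rintro ⟨h1, h2, h3⟩
      exact ⟨⟨h1, h2⟩, by omega⟩
    · rintro ⟨⟨h1, h2⟩, h3⟩
      exact ⟨h1, h2, by omega⟩
  have h2 : (𝓕.filter (fun F => 7 ≤ F.card)).filter (fun F => e ∈ F) =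
      (𝓕.filter (fun F => e ∈ F)).filter (fun F => 7 ≤ F.card) := by
    rw [Finset.filter_comm]
  rw [h1, h2]
  exact Finset.card_filter_add_card_filter_not _

end Count6Aux

theorem exists_fam (hML : ML (edg G univ)) (hc : Cyc6 G) (hW : W.Nonempty) :
    ∃ 𝓕 : Finset (Finset (Sym2 V)), Fam G W 𝓕 ∧ ∑ v ∈ W, cg 𝓕 G W v < 0 := by
  classical
  have hsub : edg G W ⊆ edg G univ := by
    intro e he
    rw [mem_edg] at he ⊢
    exact ⟨he.1, fun v _ => mem_univ v⟩
  obtain ⟨𝓕, h1, h2, h3⟩ := (hML.mono hsub).min_family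
  have hS : ∀ a b, s(a, b) ∈ edg G W → a ≠ b ∧ a ∈ W ∧ b ∈ W := by
    intro a b h
    rw [mem_edg'] at h
    exact ⟨h.1.ne, h.2⟩
  have hfam : Fam G W 𝓕 :=
    { sub := fun F hF => (h1 F hF).1
      ev := fun F hF => (h1 F hF).2.1
      two := h2
      size := fun F hF => circuit6 hc (h1 F hF).1 (h1 F hF).2.1 (h1 F hF).2.2.1 (h1 F hF).2.2.2
      dual := h3 }
  refine ⟨𝓕, hfam, ?_⟩
  have h4 := card_le_family hW hS hfam.sub h3
  have h5 := sum_card_le hfam.sub h2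
  have h6 : ∀ F ∈ 𝓕, (if 7 ≤ F.card then F.card else 0) + 42 ≤
      7 * F.card + if F ∈ (tris G W).image (edg G) then 21 else 0 := by
    intro F hF
    rcases hfam.size F hF with h | ⟨T, hT, rfl⟩ | ⟨h, -⟩
    · rw [if_pos h]
      omega
    · rw [if_pos (mem_image_of_mem _ hT), card_edg_tri hT]
      norm_num
    · rw [h]
      norm_num
  have h7 := Finset.sum_le_sum h6
  rw [Finset.sum_add_distrib, Finset.sum_const, smul_eq_mul, Finset.sum_add_distrib,
    ← Finset.sum_filter, ← Finset.sum_filter, Finset.sum_const, smul_eq_mul,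
    ← Finset.mul_sum] at h7
  have h8 : (𝓕.filter (fun F => F ∈ (tris G W).image (edg G))).card ≤ (tris G W).card := by
    refine (Finset.card_le_card ?_).trans (Finset.card_image_le (s := tris G W) (f := edg G))
    intro F hF
    exact (mem_filter.1 hF).2
  have h9 : ∑ F ∈ 𝓕.filter (fun F => 7 ≤ F.card), F.card + ∑ e ∈ edg G W, (low 𝓕 e).card =
      ∑ F ∈ 𝓕, F.card := by
    rw [Count6Aux.sum_card_eq hfam.sub,
      Count6Aux.sum_card_eq (S := edg G W) (𝓐 := 𝓕.filter (fun F => 7 ≤ F.card))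
        (fun F hF => hfam.sub F (mem_filter.1 hF).1), ← Finset.sum_add_distrib]
    exact Finset.sum_congr rfl fun e _ => Count6Aux.cov_split 𝓕 e
  have e1 : (∑ v ∈ W, ((nb G W v).card : ℤ)) = 2 * ((edg G W).card : ℤ) := by
    exact_mod_cast sum_nb G W
  have e2 : (∑ v ∈ W, ((tr G W v).card : ℤ)) = 3 * ((tris G W).card : ℤ) := by
    exact_mod_cast sum_tr G W
  have e3 : ∑ v ∈ W, hh 𝓕 G W v =
      2 * (2 * ((edg G W).card : ℤ) - ((∑ e ∈ edg G W, (low 𝓕 e).card : ℕ) : ℤ)) := by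
    unfold hh
    rw [Count6Aux.sum_edges G W (fun e => 2 - ((low 𝓕 e).card : ℤ)), Finset.sum_sub_distrib,
      Finset.sum_const, nsmul_eq_mul]
    push_cast
    ring
  have h10 : ∑ v ∈ W, cg 𝓕 G W v = 28 * (2 * ((edg G W).card : ℤ)) -
      14 * (3 * ((tris G W).card : ℤ)) - 84 * (W.card : ℤ) +
      2 * (2 * ((edg G W).card : ℤ) - ((∑ e ∈ edg G W, (low 𝓕 e).card : ℕ) : ℤ)) := by
    unfold cg
    rw [Finset.sum_add_distrib, Finset.sum_sub_distrib, Finset.sum_sub_distrib, ← Finset.mul_sum,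
      ← Finset.mul_sum, e1, e2, e3, Finset.sum_const, nsmul_eq_mul]
    ring
  rw [h10]
  omega

end Pool.Agent.Lib.SVU
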