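import Pool.Agent.Lib.SVU.Defs
import Pool.Agent.Lib.SVT.Cyc
import Pool.Agent.Lib.SVT.Circ

/-!
# SVU.Cyc6: the class in terms of tuples, and the minimal even sets

`noC4_of6`, `noC5_of6`: as `SVT.noC4_of`, `SVT.noC5_of` (SVT/Cyc.lean; build the walk).
`noTTT_of6`: build the closed walk of length 6 (as in `SVT.noC6_of`); its edges `s(b, c)` and
`s(c, d)` are triangle edges, so `s(b, c) = s(c, d)`, so `b = d`, against `Nodup`.
`circuit6`: copy the proof of `SVT.circuit` (SVT/Circ.lean): `F` is the edge set of a cycle `c` of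
`G`, `F.card = c.length`; the length is not 4, 5, if it is 3 then `F` is a triangle, if it is 6 then
`Cyc6` gives the last alternative (an edge of `F` is an edge of `c.mapLe hle`).
-/

set_option autoImplicit false
set_option linter.unusedSectionVars false
set_option linter.unusedSimpArgs false

namespace Pool.Agent.Lib.SVU

open Finset Pool.Agent.Lib.SVT

variable {V : Type*} [Fintype V] [DecidableEq V] {G : SimpleGraph V} {W : Finset V}

theorem noC4_of6 (h : Cyc6 G) : NoC4 G := by
  intro a b c d hac hbd h1 h2 h3 h4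
  have n1 := h1.ne
  have n2 := h2.ne
  have n3 := h3.ne
  have n4 := h4.ne
  refine (h a (.cons h1 (.cons h2 (.cons h3 (.cons h4 .nil)))) ?_).1 (by simp)
  rw [SimpleGraph.Walk.cons_isCycle_iff]
  simp [SimpleGraph.Walk.cons_isPath_iff, n1, n2, n3, n4, hac, hbd, n1.symm, n2.symm, n3.symm,
    n4.symm, hac.symm, hbd.symm]

theorem noC5_of6 (h : Cyc6 G) : NoC5 G := by
  intro a b c d e p1 p2 p3 p4 p5 h1 h2 h3 h4 h5
  have n1 := h1.ne
  have n2 := h2.ne
  have n3 := h3.ne
  have n4 := h4.ne
  have n5 := h5.ne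
  refine (h a (.cons h1 (.cons h2 (.cons h3 (.cons h4 (.cons h5 .nil))))) ?_).2.1 (by simp)
  rw [SimpleGraph.Walk.cons_isCycle_iff]
  simp [SimpleGraph.Walk.cons_isPath_iff, n1, n2, n3, n4, n5, n1.symm, n2.symm, n3.symm, n4.symm,
    n5.symm, p1, p2, p3, p4, p5, p1.symm, p2.symm, p3.symm, p4.symm, p5.symm]

theorem noTTT_of6 (h : Cyc6 G) : NoTTT G := by
  intro a b c d e f hn h1 h2 h3 h4 h5 h6 t1 t2 _
  simp only [List.nodup_cons, List.mem_cons, List.not_mem_nil, or_false, not_or,
    List.nodup_nil, and_true, not_false_eq_true] at hn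
  obtain ⟨⟨q1, q2, q3, q4, q5⟩, ⟨q6, q7, q8, q9⟩, ⟨q10, q11, q12⟩, ⟨q13, q14⟩, q15⟩ := hn
  have hc := (h a (.cons h1 (.cons h2 (.cons h3 (.cons h4 (.cons h5 (.cons h6 .nil)))))) (by
    rw [SimpleGraph.Walk.cons_isCycle_iff]
    simp [SimpleGraph.Walk.cons_isPath_iff, q1, q2, q3, q4, q5, q6, q7, q8, q9, q10, q11, q12, q13,
      q14, q15, Ne.symm q1, Ne.symm q2, Ne.symm q3, Ne.symm q4, Ne.symm q5, Ne.symm q6, Ne.symm q7,
      Ne.symm q8, Ne.symm q9, Ne.symm q10, Ne.symm q11, Ne.symm q12, Ne.symm q13, Ne.symm q14,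
      Ne.symm q15])).2.2 (by simp) b c c d (by simp) (by simp) t1 t2
  rcases Sym2.eq_iff.1 hc with ⟨h7, _⟩ | ⟨h7, _⟩
  · exact q6 h7
  · exact q7 h7

theorem circuit6 (hc : Cyc6 G) {F : Finset (Sym2 V)} (hF : F ⊆ edg G W) (he : Ev F)
    (hne : F.Nonempty) (hmin : ∀ F', F' ⊆ F → Ev F' → F'.Nonempty → F' = F) :
    7 ≤ F.card ∨ (∃ T ∈ tris G W, F = edg G T) ∨ (F.card = 6 ∧
      ∀ a b a' b', s(a, b) ∈ F → s(a', b') ∈ F → InT G a b → InT G a' b' →
        s(a, b) = s(a', b')) := by
  classical
  have hl : ∀ e ∈ F, ¬ e.IsDiag := fun e h => G.not_isDiag_of_mem_edgeSet (mem_edg.1 (hF h)).1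
  obtain ⟨v, c, hcyc⟩ := CircAux.exists_cycle hl he hne
  have hle : SimpleGraph.fromEdgeSet (F : Set (Sym2 V)) ≤ G := by
    intro x y h
    rw [SimpleGraph.fromEdgeSet_adj] at h
    have := hF (by exact_mod_cast h.1 : s(x, y) ∈ F)
    exact (mem_edg'.1 this).1
  have hsub : c.edges.toFinset ⊆ F := by
    intro e h
    have h1 := c.edges_subset_edgeSet (List.mem_toFinset.1 h)
    rw [SimpleGraph.edgeSet_fromEdgeSet] at h1
    exact_mod_cast h1.1
  have hnd := hcyc.isTrail.edges_nodup
  have hev : Ev c.edges.toFinset := by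
    intro x
    have h1 := (hcyc.isTrail.even_countP_edges_iff x).2 (fun h => absurd rfl h)
    have h2 : (c.edges.toFinset.filter (fun e => x ∈ e)).card =
        c.edges.countP (fun e => x ∈ e) := by
      have h3 : c.edges.toFinset.filter (fun e => x ∈ e) =
          (c.edges.filter (fun e => decide (x ∈ e))).toFinset := by
        ext e
        simp
      rw [h3, List.toFinset_card_of_nodup (hnd.filter _), List.countP_eq_length_filter]
    rw [h2]
    exact h1
  have h3 := hcyc.three_le_length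
  have hne' : c.edges.toFinset.Nonempty := by
    rw [← card_pos, List.toFinset_card_of_nodup hnd, SimpleGraph.Walk.length_edges]
    omega
  have hFc := hmin _ hsub hev hne'
  have hcard : F.card = c.length := by
    have := congrArg Finset.card hFc
    rw [List.toFinset_card_of_nodup hnd, SimpleGraph.Walk.length_edges] at this
    exact this.symm
  have h4 := hc v (c.mapLe hle) (hcyc.mapLe hle)
  have h5 : (c.mapLe hle).length = c.length := by
    simp [SimpleGraph.Walk.mapLe]
  have h6 : (c.mapLe hle).edges = c.edges := by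
    simp [SimpleGraph.Walk.mapLe]
  rw [h5, h6] at h4
  rcases Nat.lt_or_ge F.card 7 with h7 | h7
  swap
  · exact Or.inl h7
  right
  rcases Nat.lt_or_ge F.card 6 with h8 | h8
  swap
  · right
    have h9 : F.card = 6 := by omega
    refine ⟨h9, ?_⟩
    intro a b a' b' hab hab' t1 t2
    rw [← hFc, List.mem_toFinset] at hab hab'
    exact h4.2.2 (by omega) a b a' b' hab hab' t1 t2
  left
  have hlen : c.length = 3 := by
    have := h4.1
    have := h4.2.1
    omega
  match c, hlen with
  | .cons (v := b) hvb (.cons (v := d) hbd (.cons hdv .nil)), _ =>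
    simp only [SimpleGraph.Walk.edges_cons, SimpleGraph.Walk.edges_nil, List.toFinset_cons,
      List.toFinset_nil] at hFc
    have hF' : F = {s(v, b), s(b, d), s(d, v)} := hFc.symm
    have e1 := mem_edg'.1 (hF (by rw [hF']; simp : s(v, b) ∈ F))
    have e2 := mem_edg'.1 (hF (by rw [hF']; simp : s(b, d) ∈ F))
    have e3 := mem_edg'.1 (hF (by rw [hF']; simp : s(d, v) ∈ F))
    refine ⟨{v, b, d}, ?_, ?_⟩
    · rw [mem_tris]
      refine ⟨?_, ?_, ?_⟩
      · intro x hx
        simp only [mem_insert, mem_singleton] at hx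
        rcases hx with rfl | rfl | rfl
        · exact e1.2.1
        · exact e1.2.2
        · exact e2.2.2
      · rw [card_eq_three]
        exact ⟨v, b, d, e1.1.ne, e3.1.ne.symm, e2.1.ne, rfl⟩
      · intro x hx y hy hxy
        simp only [mem_insert, mem_singleton] at hx hy
        rcases hx with rfl | rfl | rfl <;> rcases hy with rfl | rfl | rfl
        · exact absurd rfl hxy
        · exact e1.1
        · exact e3.1.symm
        · exact e1.1.symm
        · exact absurd rfl hxy
        · exact e2.1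
        · exact e3.1
        · exact e2.1.symm
        · exact absurd rfl hxy
    · rw [CircAux.edg_three e1.1 e2.1 e3.1]
      exact hF'

end Pool.Agent.Lib.SVU
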