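import Pool.Agent.Lib.SVT.Disch

/-!
# SVU: (7:2)-colourings of planar graphs without 4-, 5-cycles in which every 6-cycle contains at most
one edge that lies in a triangle: definitions

`Fam G W 𝓕`: the family of faces (a MacLane family of minimal even sets; each edge is covered at most
twice; the members have 3 elements (a triangle), 6 elements (a 6-cycle with at most one triangle edge)
or at least 7 elements).  `low 𝓕 e`: the members with at most 6 elements through the edge `e`.
`hh`: the sum of `2 - (low 𝓕 e).card` over the edges `e` at `v`.  `cg`: the charge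
`28 d - 14 t - 84 + hh`.
-/

set_option autoImplicit false
set_option linter.unusedSectionVars false

namespace Pool.Agent.Lib.SVU

open Finset Pool.Agent.Lib.SVT

variable {V : Type*} [Fintype V] [DecidableEq V]

/-- `a` and `b` have a common neighbour -/
def InT (G : SimpleGraph V) (a b : V) : Prop := ∃ w, G.Adj a w ∧ G.Adj w b

lemma InT.symm {G : SimpleGraph V} {a b : V} (h : InT G a b) : InT G b a := by
  obtain ⟨w, h1, h2⟩ := h
  exact ⟨w, h2.symm, h1.symm⟩

lemma inT_of_tri {G : SimpleGraph V} {W T : Finset V} (hT : T ∈ tris G W) {a b : V} (ha : a ∈ T)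
    (hb : b ∈ T) (hab : a ≠ b) : InT G a b := by
  obtain ⟨c, d, h1, -, h2, h3, h4, -⟩ := tri_cases hT ha
  rw [h1, mem_insert, mem_insert, mem_singleton] at hb
  rcases hb with rfl | rfl | rfl
  · exact absurd rfl hab
  · exact ⟨d, h3, h4.symm⟩
  · exact ⟨c, h2, h4⟩

/-- the class, in terms of walks: no cycles of length 4, 5; two triangle edges on a cycle of
length 6 are equal -/
def Cyc6 (G : SimpleGraph V) : Prop :=
  ∀ (v : V) (c : G.Walk v v), c.IsCycle → c.length ≠ 4 ∧ c.length ≠ 5 ∧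
    (c.length = 6 → ∀ a b a' b', s(a, b) ∈ c.edges → s(a', b') ∈ c.edges → InT G a b →
      InT G a' b' → s(a, b) = s(a', b'))

/-- no cycle of length 6 with three consecutive triangle edges -/
def NoTTT (G : SimpleGraph V) : Prop :=
  ∀ a b c d e f : V, [a, b, c, d, e, f].Nodup →
    G.Adj a b → G.Adj b c → G.Adj c d → G.Adj d e → G.Adj e f → G.Adj f a →
    InT G b c → InT G c d → InT G d e → False

/-- the faces -/
structure Fam (G : SimpleGraph V) (W : Finset V) (𝓕 : Finset (Finset (Sym2 V))) : Prop where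
  sub : ∀ F ∈ 𝓕, F ⊆ edg G W
  ev : ∀ F ∈ 𝓕, Ev F
  two : ∀ e, (𝓕.filter (fun F => e ∈ F)).card ≤ 2
  size : ∀ F ∈ 𝓕, 7 ≤ F.card ∨ (∃ T ∈ tris G W, F = edg G T) ∨ (F.card = 6 ∧
    ∀ a b a' b', s(a, b) ∈ F → s(a', b') ∈ F → InT G a b → InT G a' b' → s(a, b) = s(a', b'))
  dual : ∀ c : Sym2 V → ZMod 2, (∀ F ∈ 𝓕, ∑ e ∈ F, c e = 0) →
    ∃ y : V → ZMod 2, ∀ a b, s(a, b) ∈ edg G W → c s(a, b) = y a + y b

/-- the members with at most 6 elements through `e` -/
noncomputable def low (𝓕 : Finset (Finset (Sym2 V))) (e : Sym2 V) : Finset (Finset (Sym2 V)) := by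
  classical exact 𝓕.filter (fun F => e ∈ F ∧ F.card ≤ 6)

lemma mem_low {𝓕 : Finset (Finset (Sym2 V))} {e : Sym2 V} {F : Finset (Sym2 V)} :
    F ∈ low 𝓕 e ↔ F ∈ 𝓕 ∧ e ∈ F ∧ F.card ≤ 6 := by
  classical
  unfold low
  rw [mem_filter]

lemma low_le {G : SimpleGraph V} {W : Finset V} {𝓕 : Finset (Finset (Sym2 V))} (h : Fam G W 𝓕)
    (e : Sym2 V) : (low 𝓕 e).card ≤ 2 := by
  classical
  refine (card_le_card ?_).trans (h.two e)
  intro F hF
  rw [mem_low] at hF
  exact mem_filter.2 ⟨hF.1, hF.2.1⟩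

/-- the missing or large sides of the edges at `v` -/
noncomputable def hh (𝓕 : Finset (Finset (Sym2 V))) (G : SimpleGraph V) (W : Finset V) (v : V) : ℤ :=
  ∑ u ∈ nb G W v, (2 - ((low 𝓕 s(v, u)).card : ℤ))

/-- the charge -/
noncomputable def cg (𝓕 : Finset (Finset (Sym2 V))) (G : SimpleGraph V) (W : Finset V) (v : V) : ℤ :=
  28 * ((nb G W v).card : ℤ) - 14 * ((tr G W v).card : ℤ) - 84 + hh 𝓕 G W v

lemma hh_nonneg {G : SimpleGraph V} {W : Finset V} {𝓕 : Finset (Finset (Sym2 V))} (h : Fam G W 𝓕)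
    (v : V) : 0 ≤ hh 𝓕 G W v := by
  unfold hh
  refine Finset.sum_nonneg fun u _ => ?_
  have := low_le h s(v, u)
  omega

/-- the free neighbours of type (1,1) -/
noncomputable def ones (G : SimpleGraph V) (W : Finset V) (x : V) : Finset V := by
  classical exact (fr G W x).filter (fun u => (nb G W u).card = 3 ∧ (tr G W u).card = 1)

lemma mem_ones {G : SimpleGraph V} {W : Finset V} {x u : V} :
    u ∈ ones G W x ↔ u ∈ fr G W x ∧ (nb G W u).card = 3 ∧ (tr G W u).card = 1 := by
  classical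
  unfold ones
  rw [mem_filter]

lemma kk_eq (G : SimpleGraph V) (W : Finset V) (x : V) : kk G W x = (ones G W x).card := by
  classical
  unfold kk ones
  congr 1

/-- the free neighbours of type (0,3) that have a neighbour of type (1,1) -/
noncomputable def stars (G : SimpleGraph V) (W : Finset V) (x : V) : Finset V := by
  classical
  exact (fr G W x).filter
    (fun u => (nb G W u).card = 3 ∧ (tr G W u).card = 0 ∧ (ones G W u).Nonempty)

lemma mem_stars {G : SimpleGraph V} {W : Finset V} {x u : V} :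
    u ∈ stars G W x ↔ u ∈ fr G W x ∧ (nb G W u).card = 3 ∧ (tr G W u).card = 0 ∧
      (ones G W u).Nonempty := by
  classical
  unfold stars
  rw [mem_filter]

/-- an edge at `v` in a member of the family is followed by another edge at `v` -/
lemma next {G : SimpleGraph V} {W : Finset V} {𝓕 : Finset (Finset (Sym2 V))} (h : Fam G W 𝓕)
    {F : Finset (Sym2 V)} (hF : F ∈ 𝓕) {v u : V} (hu : s(v, u) ∈ F) :
    ∃ w, w ≠ u ∧ s(v, w) ∈ F ∧ w ∈ nb G W v := by
  classical
  have h1 := h.ev F hF v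
  have h2 : s(v, u) ∈ F.filter (fun e => v ∈ e) := mem_filter.2 ⟨hu, Sym2.mem_mk_left v u⟩
  have h3 : 1 < (F.filter (fun e => v ∈ e)).card := by
    have : 0 < (F.filter (fun e => v ∈ e)).card := card_pos.2 ⟨_, h2⟩
    rcases h1 with ⟨k, hk⟩
    omega
  obtain ⟨e, he, hne⟩ := exists_mem_ne h3 s(v, u)
  rw [mem_filter] at he
  obtain ⟨w, rfl⟩ := Sym2.mem_iff_exists.1 he.2
  have h4 := mem_edg'.1 (h.sub F hF he.1)
  refine ⟨w, ?_, he.1, mem_nb.2 ⟨h4.2.2, h4.1⟩⟩
  rintro rfl
  exact hne rfl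

end Pool.Agent.Lib.SVU
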