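import Pool.Agent.Lib.SVU.Defs

/-!
# SVU.Red6: the centre triangle configurations without `NoC6`

The proof of `SVT.c678` (SVT/Red.lean) uses `NoC6` only in `f7`: for `x ≠ x'` in `T`, `u` a vertex at
distance two from `x` in the pendant part at `x` (so the part is `{v, y, z}`, `u = z`, of `BadAt`),
`u'` the same at `x'`, `u ~ u'`: the 6-cycle `u v x x' v' u'`.  Its edges `v x` (triangle `x v y`),
`x x'` (in `T`), `x' v'` (triangle `x' v' y'`) lie in triangles, so `NoTTT` suffices.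
Copy `L2`, `f7`, `part`, `c678` with `L2' G T x u := ∃ v y, L1 G T x v ∧ G.Adj v u ∧ u ≠ x ∧
L1 G T x y ∧ G.Adj v y` (so `L2'` implies `L2`, and all other lemmas `f1`–`f6` can be used).
-/

set_option autoImplicit false
set_option linter.unusedSectionVars false

namespace Pool.Agent.Lib.SVU

open Finset Pool.Agent.Lib.SVT

variable {V : Type*} [Fintype V] [DecidableEq V] {G : SimpleGraph V} {W : Finset V}

namespace Red6Aux

/-- neighbours of neighbours `v` of `x` outside `T`, `v` in a triangle with `x` outside `T` -/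
def L2' (G : SimpleGraph V) (T : Finset V) (x u : V) : Prop :=
  ∃ v y, L1 G T x v ∧ G.Adj v u ∧ u ≠ x ∧ L1 G T x y ∧ G.Adj v y

theorem L2'.toL2 {T : Finset V} {x u : V} (h : L2' G T x u) : L2 G T x u := by
  obtain ⟨v, y, h1, h2, h3, -, -⟩ := h
  exact ⟨v, h1, h2, h3⟩

theorem f7' (h4 : NoC4 G) (h6 : NoTTT G) {T : Finset V} (hT : T ∈ tris G W) {x x' u u' : V}
    (hx : x ∈ T) (hx' : x' ∈ T) (hne : x ≠ x') (h : L2' G T x u) (h' : L2' G T x' u')
    (ha : G.Adj u u') : False := by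
  have hL := h.toL2
  have hL' := h'.toL2
  have huT : u ∉ T := f2 h4 hT hx hL
  have huT' : u' ∉ T := f2 h4 hT hx' hL'
  obtain ⟨v, y, hv, hvu, hux, hxy, hvy⟩ := h
  obtain ⟨v', y', hv', hvu', hux', hxy', hvy'⟩ := h'
  have hadj := (mem_tris.1 hT).2.2 x hx x' hx' hne
  have e1 : v ≠ x' := fun e => hv.2 (e ▸ hx')
  have e2 : x ≠ v' := fun e => hv'.2 (e ▸ hx)
  have e3 : v ≠ v' := by
    rintro rfl
    exact f1 h4 hT hx hx' hne hv hv'
  have e4 : u ≠ x' := fun e => huT (e ▸ hx')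
  have e5 : x ≠ u' := fun e => huT' (e ▸ hx)
  have e6 : u ≠ v' := by
    rintro rfl
    exact f3 h4 hT hx hx' hne hL hv'
  have e7 : v ≠ u' := by
    rintro rfl
    exact f3 h4 hT hx' hx hne.symm hL' hv
  refine h6 u v x x' v' u' ?_ hvu.symm hv.1.symm hadj hv'.1 hvu' ha.symm ⟨y, hvy, hxy.1.symm⟩
    (inT_of_tri hT hx hx' hne) ⟨y', hxy'.1, hvy'.symm⟩
  simp only [List.nodup_cons, List.mem_cons, List.not_mem_nil, or_false, not_or, List.nodup_nil,
    and_true, not_false_eq_true]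
  exact ⟨⟨hvu.ne.symm, hux, e4, e6, ha.ne⟩, ⟨hv.1.ne.symm, e1, e3, e7⟩, ⟨hne, e2, e5⟩,
    ⟨hv'.1.ne, hux'.symm⟩, hvu'.ne⟩

/-- the pendant part at a vertex of `T` -/
theorem part' (h4 : NoC4 G) {T : Finset V} (hT : T ∈ tris G W) {x : V} (hx : x ∈ T)
    (hd : (nb G W x).card = 4) (h : BadAt G W T x ∨ TwoAt G W T x) :
    ∃ P : Finset V, P ⊆ W ∧ Pend G W x P 6 ∧ (∀ u ∈ P, L1 G T x u ∨ L2' G T x u) ∧
      ∀ u ∈ nb G W x, u ∈ P ∨ u ∈ T := by
  obtain ⟨hTW, hT3, hadj⟩ := mem_tris.1 hT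
  have hxW : x ∈ W := hTW hx
  have key : ∀ a b : V, a ∈ nb G W x → b ∈ nb G W x → a ∉ T → b ∉ T → a ≠ b →
      ∀ u ∈ nb G W x, u = a ∨ u = b ∨ u ∈ T := by
    intro a b ha hb haT hbT hab u hu
    have hsub : T.erase x ∪ {a, b} ⊆ nb G W x := by
      intro w hw
      rw [mem_union, mem_erase, mem_insert, mem_singleton] at hw
      rcases hw with ⟨h1, h2⟩ | rfl | rfl
      · exact mem_nb.2 ⟨hTW h2, hadj x hx w h2 h1.symm⟩
      · exact ha
      · exact hb
    have hdis : Disjoint (T.erase x) {a, b} := by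
      rw [disjoint_left]
      intro w hw hw2
      rw [mem_insert, mem_singleton] at hw2
      rcases hw2 with rfl | rfl
      · exact haT (mem_of_mem_erase hw)
      · exact hbT (mem_of_mem_erase hw)
    have hcard : (T.erase x ∪ {a, b}).card = 4 := by
      rw [card_union_of_disjoint hdis, card_erase_of_mem hx, hT3, card_pair hab]
    have heq := eq_of_subset_of_card_le hsub (by rw [hcard, hd])
    rw [← heq, mem_union, mem_insert, mem_singleton] at hu
    rcases hu with h1 | h1 | h1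
    · exact Or.inr (Or.inr (mem_of_mem_erase h1))
    · exact Or.inl h1
    · exact Or.inr (Or.inl h1)
  rcases h with ⟨v, y, z, hv, hy, hvT, hyT, hvy, hz, hzx, hzy, dv, dy, dz⟩ |
    ⟨n, n', hn, hn', hnT, hnT', hnn, hna, dn, dn'⟩
  · have mv := mem_nb.1 hv
    have my := mem_nb.1 hy
    have mz := mem_nb.1 hz
    have hxv : x ≠ v := mv.2.ne
    have hvney : v ≠ y := hvy.ne
    have hzx' : ¬ G.Adj z x := fun h => h4 x z v y hxv hzy h.symm mz.2.symm hvy my.2.symm
    have hzy' : ¬ G.Adj z y := fun h => h4 x v z y hzx.symm hvney mv.2 mz.2 h my.2.symm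
    refine ⟨{v, y, z}, ?_, pend_b hxW mv.1 my.1 mz.1 mv.2 my.2 hvy mz.2 hzx hzy hzx' hzy' dv dy dz,
      ?_, ?_⟩
    · intro u hu
      rw [mem_insert, mem_insert, mem_singleton] at hu
      rcases hu with rfl | rfl | rfl
      · exact mv.1
      · exact my.1
      · exact mz.1
    · intro u hu
      rw [mem_insert, mem_insert, mem_singleton] at hu
      rcases hu with rfl | rfl | rfl
      · exact Or.inl ⟨mv.2, hvT⟩
      · exact Or.inl ⟨my.2, hyT⟩
      · exact Or.inr ⟨v, y, ⟨mv.2, hvT⟩, mz.2, hzx, ⟨my.2, hyT⟩, hvy⟩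
    · intro u hu
      rw [mem_insert, mem_insert, mem_singleton]
      rcases key v y hv hy hvT hyT hvney u hu with h1 | h1 | h1
      · exact Or.inl (Or.inl h1)
      · exact Or.inl (Or.inr (Or.inl h1))
      · exact Or.inr h1
  · have mn := mem_nb.1 hn
    have mn' := mem_nb.1 hn'
    refine ⟨{n} ∪ {n'}, ?_, ?_, ?_, ?_⟩
    · intro u hu
      rw [mem_union, mem_singleton, mem_singleton] at hu
      rcases hu with rfl | rfl
      · exact mn.1
      · exact mn'.1
    · have h33 : Pend G W x ({n} ∪ {n'}) (3 + 3) := by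
        refine pend_union (pend_one hxW mn.2 dn) (pend_one hxW mn'.2 dn') ?_ ?_
        · rw [disjoint_singleton]
          exact hnn
        · intro u hu w hw
          rw [mem_singleton] at hu hw
          rw [hu, hw]
          exact hna
      exact h33
    · intro u hu
      rw [mem_union, mem_singleton, mem_singleton] at hu
      rcases hu with rfl | rfl
      · exact Or.inl ⟨mn.2, hnT⟩
      · exact Or.inl ⟨mn'.2, hnT'⟩
    · intro u hu
      rw [mem_union, mem_singleton, mem_singleton]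
      rcases key n n' hn hn' hnT hnT' hnn u hu with h1 | h1 | h1
      · exact Or.inl (Or.inl h1)
      · exact Or.inl (Or.inr h1)
      · exact Or.inr h1

end Red6Aux

open Red6Aux in
theorem c678' (hm : Min G W) (h4 : NoC4 G) (h5 : NoC5 G) (h6 : NoTTT G) {T : Finset V}
    (hT : T ∈ tris G W) (hall : ∀ x ∈ T, (nb G W x).card = 4 ∧ (BadAt G W T x ∨ TwoAt G W T x)) :
    False := by
  obtain ⟨hTW, hT3, hadj⟩ := mem_tris.1 hT
  have hparts : ∀ x : T, ∃ P : Finset V, P ⊆ W ∧ Pend G W x P 6 ∧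
      (∀ u ∈ P, L1 G T x u ∨ L2' G T x u) ∧ ∀ u ∈ nb G W x, u ∈ P ∨ u ∈ T := fun x =>
    part' h4 hT x.2 (hall x x.2).1 (hall x x.2).2
  choose P hPW hPend hPL hPnb using hparts
  let e : Fin 3 ≃ T := (T.equivFinOfCardEq hT3).symm
  have hinj : Function.Injective (fun i => ((e i : T) : V)) := fun i j hij =>
    e.injective (Subtype.ext hij)
  have hne : ∀ i j, i ≠ j → ((e i : T) : V) ≠ ((e j : T) : V) := fun i j hij h => hij (hinj h)
  have hPT : ∀ j, ∀ u ∈ P (e j), u ∉ T := by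
    intro j u hu
    rcases hPL (e j) u hu with h | h
    · exact h.2
    · exact f2 h4 hT (e j).2 h.toL2
  refine centre hm (fun i => ((e i : T) : V)) (fun i => P (e i)) (fun i => hTW (e i).2) hinj
    (fun i => hPW (e i)) ?_ ?_ ?_ ?_ ?_ (fun i => hPend (e i))
  · intro i j h
    exact hPT j _ h (e i).2
  · intro i j hij
    rw [disjoint_left]
    intro u hu hu'
    rcases hPL (e i) u hu with h | h <;> rcases hPL (e j) u hu' with h' | h'
    · exact f1 h4 hT (e i).2 (e j).2 (hne i j hij) h h'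
    · exact f3 h4 hT (e j).2 (e i).2 (hne j i hij.symm) h'.toL2 h
    · exact f3 h4 hT (e i).2 (e j).2 (hne i j hij) h.toL2 h'
    · exact f4 h4 h5 hT (e i).2 (e j).2 (hne i j hij) h.toL2 h'.toL2
  · intro i j hij u hu v hv ha
    rcases hPL (e i) u hu with h | h <;> rcases hPL (e j) v hv with h' | h'
    · exact f5 h4 hT (e i).2 (e j).2 (hne i j hij) h h' ha
    · exact f6 h4 h5 hT (e j).2 (e i).2 (hne j i hij.symm) h'.toL2 h ha.symm
    · exact f6 h4 h5 hT (e i).2 (e j).2 (hne i j hij) h.toL2 h' ha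
    · exact f7' h4 h6 hT (e i).2 (e j).2 (hne i j hij) h h' ha
  · intro i j hij v hv ha
    have hL : L1 G T (e i) v := ⟨ha, hPT j v hv⟩
    rcases hPL (e j) v hv with h' | h'
    · exact f1 h4 hT (e i).2 (e j).2 (hne i j hij) hL h'
    · exact f3 h4 hT (e j).2 (e i).2 (hne j i hij.symm) h'.toL2 hL
  · intro i u hu
    rcases hPnb (e i) u hu with h | h
    · exact Or.inl h
    · refine Or.inr ⟨e.symm ⟨u, h⟩, ?_⟩
      simp

end Pool.Agent.Lib.SVU
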