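import Pool.Agent.Lib.SVU.Num6
import Pool.Agent.Lib.SVU.Red6

/-!
# SVU.Disch6: the discharging

Copy SVT/Disch.lean (definitions `Bad`, `Ob`, lemmas `double`, `badAt_of_ob`, `no_ob` are used as they
are) with the scaled flag charges
`al6 x T = 5` / `2` / `-1` for `x` of type (2,0) (`Bad T` and not `Ob`; both or none; `Ob` and not
`Bad T`), and `rest6 x / |tr x|` otherwise.
`al6_sum_le`: `∑_{T ∈ tr x} al6 x T ≤ rest6 x` (type (2,0): the sum is 4, `num2`; otherwise equality).
A vertex of degree at least 4 in a triangle `T`: type (2,0), or degree at least 5 and `al6 ≥ 10`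
(`num5`), or degree 4 and one triangle, and then `al6 = rest6 ≥ 0` (`num4c`), and `al6 ≥ 2` or
`TwoAt G W T x` (`num4b`: two different free neighbours of degree 3 are not in `T` and not adjacent).
If `T` contains a 3-vertex `w` and `x` has degree 4 and one triangle, two free 3-neighbours are
impossible (`c2` with `w`, see `SVT.al_one`), so `al6 ≥ 2`.
3-vertex `v` in `T` (`rest6_a`): `al6 = 0` if `z` has degree at least 4; otherwise all other vertices
of `T` have degree at least 4 (`c1`) and `al6 ≥ -4` (`z` has no triangle, `hh_nonneg`) or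
(`z ∈ ones G W v`) `al6 ≥ -10` (`numP`).
Triangles with a 3-vertex `v` as in `SVT.tri_nonneg`: `0 + (≥ 0) + (≥ 0)`; `-4 + 2 + 2`; case `-10`:
both other vertices of type (2,0): `T` is `Bad`, `no_ob`, `-10 + 5 + 5`; one of them, `y`, has degree at
least 5: `-10 + 10 + 2`; otherwise both have degree 4 and one of them, `x`, has one triangle: it has no
free 3-neighbour `v'` (`SVT.r6` with `v`, `y` the other vertex of `T` (degree 4), `z`), so `al6 x ≥ 14`
(`num4a`).
Triangles without 3-vertices: every vertex has `al6 ≥ 2`, or `al6 ≥ -1`, degree 4 and (`BadAt` or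
`TwoAt`); if one has `al6 ≥ 2` the sum is `≥ 2 - 1 - 1`, otherwise `c678'`.
`charge_nonneg6` as `SVT.charge_nonneg` (vertices without triangles: `num0`, `rest6_z`, `min_deg`).
-/

set_option autoImplicit false
set_option linter.unusedSectionVars false

namespace Pool.Agent.Lib.SVU

open Finset Pool.Agent.Lib.SVT

variable {V : Type*} [Fintype V] [DecidableEq V] {G : SimpleGraph V} {W : Finset V}
variable {𝓕 : Finset (Finset (Sym2 V))}

namespace Disch6Aux

/-- the charge of the flag `(x, T)` -/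
noncomputable def al6 (𝓕 : Finset (Finset (Sym2 V))) (G : SimpleGraph V) (W : Finset V) (x : V)
    (T : Finset V) : ℚ := by
  classical exact
    if (nb G W x).card = 4 ∧ (tr G W x).card = 2 then
      (if Bad G W T then (if Ob G W x T then 2 else 5) else (if Ob G W x T then -1 else 2))
    else (rest6 𝓕 G W x : ℚ) / ((tr G W x).card : ℚ)

lemma al6_sum_le (h4 : NoC4 G) (hF : Fam G W 𝓕) {x : V} (hx : x ∈ W)
    (ht : (tr G W x).card ≠ 0) : ∑ T ∈ tr G W x, al6 𝓕 G W x T ≤ (rest6 𝓕 G W x : ℚ) := by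
  classical
  by_cases h : (nb G W x).card = 4 ∧ (tr G W x).card = 2
  · obtain ⟨T1, T2, hne, h12⟩ := card_eq_two.1 h.2
    have hr : (4 : ℚ) ≤ (rest6 𝓕 G W x : ℚ) := by
      exact_mod_cast num2 h4 hF hx h.1 h.2
    have o1 : Ob G W x T1 ↔ Bad G W T2 := by
      unfold Ob
      rw [h12]
      constructor
      · rintro ⟨T', hT', h1, h2⟩
        rw [mem_insert, mem_singleton] at hT'
        rcases hT' with rfl | rfl
        · exact absurd rfl h1
        · exact h2
      · intro h2
        exact ⟨T2, by simp, hne.symm, h2⟩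
    have o2 : Ob G W x T2 ↔ Bad G W T1 := by
      unfold Ob
      rw [h12]
      constructor
      · rintro ⟨T', hT', h1, h2⟩
        rw [mem_insert, mem_singleton] at hT'
        rcases hT' with rfl | rfl
        · exact h2
        · exact absurd rfl h1
      · intro h2
        exact ⟨T1, by simp, hne, h2⟩
    refine le_trans (le_of_eq ?_) hr
    rw [h12, sum_pair hne]
    unfold al6
    rw [if_pos h, if_pos h]
    by_cases b1 : Bad G W T1 <;> by_cases b2 : Bad G W T2 <;> simp [o1, o2, b1, b2] <;> norm_num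
  · unfold al6
    rw [sum_congr rfl (fun T _ => if_neg h), sum_const, nsmul_eq_mul]
    have : ((tr G W x).card : ℚ) ≠ 0 := by exact_mod_cast ht
    refine le_of_eq ?_
    field_simp

/-- a vertex without triangles -/
lemma rest6_nonneg (hm : Min G W) (h4 : NoC4 G) (hF : Fam G W 𝓕) {x : V} (hx : x ∈ W)
    (ht : (tr G W x).card = 0) : 0 ≤ rest6 𝓕 G W x := by
  have hd := min_deg hm hx
  rcases Nat.lt_or_ge (nb G W x).card 4 with h3 | h4'
  · exact rest6_z hm h4 hF hx (by omega) ht
  · exact num0 hm h4 hF hx h4' ht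

/-- a vertex of degree at least 4 in a triangle -/
lemma al6_big (hm : Min G W) (h4 : NoC4 G) (hF : Fam G W 𝓕) {T : Finset V} (hT : T ∈ tris G W)
    {x : V} (hx : x ∈ T) (hd : 4 ≤ (nb G W x).card) :
    ((nb G W x).card = 4 ∧ (tr G W x).card = 2) ∨
      (5 ≤ (nb G W x).card ∧ 10 ≤ al6 𝓕 G W x T) ∨
      ((nb G W x).card = 4 ∧ (tr G W x).card = 1 ∧ al6 𝓕 G W x T = (rest6 𝓕 G W x : ℚ) ∧
        0 ≤ al6 𝓕 G W x T ∧ (2 ≤ al6 𝓕 G W x T ∨ TwoAt G W T x)) := by
  classical
  have hxW : x ∈ W := (mem_tris.1 hT).1 hx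
  have hTx : T ∈ tr G W x := mem_tr.2 ⟨hT, hx⟩
  have ht : 1 ≤ (tr G W x).card := card_pos.2 ⟨T, hTx⟩
  have hf := fr_card h4 hxW
  by_cases h : (nb G W x).card = 4 ∧ (tr G W x).card = 2
  · exact Or.inl h
  right
  have htq : (0 : ℚ) < ((tr G W x).card : ℚ) := by exact_mod_cast ht
  have hal : al6 𝓕 G W x T = (rest6 𝓕 G W x : ℚ) / ((tr G W x).card : ℚ) := by
    unfold al6
    rw [if_neg h]
  rcases Nat.lt_or_ge (nb G W x).card 5 with h5 | h5
  · right
    have e1 : (nb G W x).card = 4 := by omega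
    have e2 : (tr G W x).card = 1 := by omega
    have hal1 : al6 𝓕 G W x T = (rest6 𝓕 G W x : ℚ) := by
      rw [hal, e2]
      simp
    refine ⟨e1, e2, hal1, ?_, ?_⟩
    · rw [hal1]
      exact_mod_cast num4c hm h4 hF hxW e1 e2
    · by_cases hT2 : TwoAt G W T x
      · exact Or.inr hT2
      · left
        rw [hal1]
        have h2 : 2 ≤ rest6 𝓕 G W x := by
          refine num4b h4 hF hxW e1 e2 ?_
          intro u hu u' hu' du du'
          by_contra hne
          exact hT2 ⟨u, u', (mem_fr.1 hu).1, (mem_fr.1 hu').1, (mem_fr.1 hu).2 T hTx,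
            (mem_fr.1 hu').2 T hTx, hne, fr_nonadj hxW hu (mem_fr.1 hu').1, du, du'⟩
        exact_mod_cast h2
  · left
    refine ⟨h5, ?_⟩
    rw [hal, le_div_iff₀ htq]
    exact_mod_cast num5 hm h4 hF hxW h5 ht

/-- in a triangle with a 3-vertex a vertex of degree at least 4 has flag charge at least 2 -/
lemma al6_one (hm : Min G W) (h4 : NoC4 G) (hF : Fam G W 𝓕) {T : Finset V} (hT : T ∈ tris G W)
    {x w : V} (hx : x ∈ T) (hd : 4 ≤ (nb G W x).card) (hw : w ∈ T) (dw : (nb G W w).card = 3) :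
    (((nb G W x).card = 4 ∧ (tr G W x).card = 2) ∧ 2 ≤ al6 𝓕 G W x T ∧
      (Bad G W T → al6 𝓕 G W x T = 5)) ∨
    (5 ≤ (nb G W x).card ∧ 10 ≤ al6 𝓕 G W x T) ∨
    ((nb G W x).card = 4 ∧ (tr G W x).card = 1 ∧ al6 𝓕 G W x T = (rest6 𝓕 G W x : ℚ) ∧
      2 ≤ al6 𝓕 G W x T) := by
  classical
  have hwx : x ≠ w := by
    rintro rfl
    omega
  rcases al6_big hm h4 hF hT hx hd with h | h | ⟨e1, e2, hal, -, h⟩
  · left
    have hno := no_ob hm h4 hT hx h.1 hw dw
    refine ⟨h, ?_, ?_⟩
    · unfold al6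
      rw [if_pos h, if_neg hno, if_neg hno]
      split_ifs <;> norm_num
    · intro hB
      unfold al6
      rw [if_pos h, if_pos hB, if_neg hno]
  · exact Or.inr (Or.inl h)
  · rcases h with h | h2
    · exact Or.inr (Or.inr ⟨e1, e2, hal, h⟩)
    · exfalso
      obtain ⟨n, n', hn, hn', hnT, hnT', hne, hnn, dn, dn'⟩ := h2
      have hxW : x ∈ W := (mem_tris.1 hT).1 hx
      have hwn := nb_of_tri hT hx hw hwx
      have key : ∀ m, m ∈ nb G W x → m ∉ T → ¬ G.Adj m w := by
        intro m hm' hmT hadj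
        obtain ⟨p1, p2⟩ := mem_nb.1 hm'
        obtain ⟨p3, p4⟩ := mem_nb.1 hwn
        have hT2 := mk_tri hxW p1 p3 p2 p4 hadj
        have := tri_unique h4 hT2 hT hwx (by simp) (by simp) hx hw
        rw [← this] at hmT
        simp at hmT
      refine c2 hm hxW e1 hn hn' hwn hne ?_ ?_ hnn (key n hn hnT) (key n' hn' hnT') dn dn' dw
      · rintro rfl
        exact hnT hw
      · rintro rfl
        exact hnT' hw

lemma al6_ge2 (hm : Min G W) (h4 : NoC4 G) (hF : Fam G W 𝓕) {T : Finset V} (hT : T ∈ tris G W)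
    {x w : V} (hx : x ∈ T) (hd : 4 ≤ (nb G W x).card) (hw : w ∈ T) (dw : (nb G W w).card = 3) :
    2 ≤ al6 𝓕 G W x T := by
  rcases al6_one hm h4 hF hT hx hd hw dw with ⟨-, h, -⟩ | ⟨-, h⟩ | ⟨-, -, -, h⟩
  · exact h
  · linarith
  · exact h

/-- the flag charge of a 3-vertex -/
lemma al6_three (hm : Min G W) (h4 : NoC4 G) (hF : Fam G W 𝓕) {T : Finset V}
    (hT : T ∈ tris G W) {v : V} (hv : v ∈ T) (dv : (nb G W v).card = 3) :
    al6 𝓕 G W v T = 0 ∨ ((∀ x ∈ T, x ≠ v → 4 ≤ (nb G W x).card) ∧ (-4 ≤ al6 𝓕 G W v T ∨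
      (-10 ≤ al6 𝓕 G W v T ∧ ∃ z ∈ fr G W v, (nb G W z).card = 3 ∧ (tr G W z).card = 1))) := by
  classical
  have hvW : v ∈ W := (mem_tris.1 hT).1 hv
  have hTv : T ∈ tr G W v := mem_tr.2 ⟨hT, hv⟩
  have ht1 : 1 ≤ (tr G W v).card := card_pos.2 ⟨T, hTv⟩
  have hf := fr_card h4 hvW
  have ht : (tr G W v).card = 1 := by omega
  obtain ⟨z, hz, hr⟩ := rest6_a (𝓕 := 𝓕) h4 hvW dv ht
  have hal : al6 𝓕 G W v T = (rest6 𝓕 G W v : ℚ) := by
    unfold al6
    rw [if_neg (by omega), ht]
    simp
  have hzf : z ∈ fr G W v := by rw [hz]; simp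
  by_cases hdz : 4 ≤ (nb G W z).card
  · left
    rw [hal, hr, if_pos hdz]
    push_cast
    ring
  · right
    have hzW := fr_sub G W v hzf
    have dz : (nb G W z).card = 3 := by
      have := min_deg hm hzW
      omega
    refine ⟨?_, ?_⟩
    · intro x hx hxv
      by_contra hcon
      have hxW : x ∈ W := (mem_tris.1 hT).1 hx
      have dx : (nb G W x).card = 3 := by
        have := min_deg hm hxW
        omega
      have hxn := nb_of_tri hT hv hx hxv.symm
      refine c1 hm hvW (mem_fr.1 hzf).1 hxn ?_ (fr_nonadj hvW hzf hxn) dv dz dx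
      rintro rfl
      exact (mem_fr.1 hzf).2 T hTv hx
    · rw [if_neg hdz] at hr
      by_cases htz : (tr G W z).card = 0
      · left
        rw [if_pos htz] at hr
        have h0 := hh_nonneg hF v
        rw [hal]
        have : (-4 : ℤ) ≤ rest6 𝓕 G W v := by omega
        exact_mod_cast this
      · right
        rw [if_neg htz] at hr
        have hf2 := fr_card h4 hzW
        have htz1 : (tr G W z).card = 1 := by omega
        have h0 := numP h4 hF hvW dv ht (mem_ones.2 ⟨hzf, dz, htz1⟩)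
        refine ⟨?_, z, hzf, dz, htz1⟩
        rw [hal]
        have : (-10 : ℤ) ≤ rest6 𝓕 G W v := by omega
        exact_mod_cast this

/-- two 4-vertices `x`, `y` and a 3-vertex with a free neighbour of degree 3: if `x` has only one
triangle, its charge is at least 14 -/
lemma al6_four (hm : Min G W) (h4 : NoC4 G) (hF : Fam G W 𝓕) {T : Finset V} (hT : T ∈ tris G W)
    {v x y z : V} (hv : v ∈ T) (hx : x ∈ T) (hy : y ∈ T) (hvx : v ≠ x) (hvy : v ≠ y)
    (hxy : x ≠ y) (dv : (nb G W v).card = 3) (hz : z ∈ fr G W v) (dz : (nb G W z).card = 3)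
    (dx : (nb G W x).card = 4) (tx : (tr G W x).card = 1) (dy : (nb G W y).card = 4)
    (hal : al6 𝓕 G W x T = (rest6 𝓕 G W x : ℚ)) : 14 ≤ al6 𝓕 G W x T := by
  classical
  obtain ⟨hTW, -, hadj⟩ := mem_tris.1 hT
  have hxW : x ∈ W := hTW hx
  have hTv : T ∈ tr G W v := mem_tr.2 ⟨hT, hv⟩
  have hTx : T ∈ tr G W x := mem_tr.2 ⟨hT, hx⟩
  have hzT := (mem_fr.1 hz).2 T hTv
  rw [hal]
  have : (14 : ℤ) ≤ rest6 𝓕 G W x := by
    refine num4a h4 hF hxW dx tx ?_
    intro v' hv' dv'
    have hv'T := (mem_fr.1 hv').2 T hTx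
    refine r6 hm h4 hxW dx (nb_of_tri hT hx hv hvx.symm) (nb_of_tri hT hx hy hxy)
      (hadj v hv y hy hvy) (mem_fr.1 hv').1 ?_ ?_ (mem_fr.1 hz).1 ?_ ?_ dv dy dz dv'
    · rintro rfl
      exact hv'T hv
    · rintro rfl
      exact hv'T hy
    · rintro rfl
      exact hzT hx
    · rintro rfl
      exact hzT hy
  exact_mod_cast this

/-- every triangle has nonnegative charge -/
lemma tri6_nonneg (hm : Min G W) (h4 : NoC4 G) (h5 : NoC5 G) (h6 : NoTTT G) (hF : Fam G W 𝓕)
    {T : Finset V} (hT : T ∈ tris G W) : 0 ≤ ∑ x ∈ T, al6 𝓕 G W x T := by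
  classical
  by_cases h3 : ∃ v ∈ T, (nb G W v).card = 3
  · obtain ⟨v, hv, dv⟩ := h3
    obtain ⟨a, b, hTab, hab, hva, hvb, hadj, -, haW, hbW⟩ := tri_cases hT hv
    have haT : a ∈ T := by rw [hTab]; simp
    have hbT : b ∈ T := by rw [hTab]; simp
    have hsum : ∑ x ∈ T, al6 𝓕 G W x T =
        al6 𝓕 G W v T + (al6 𝓕 G W a T + al6 𝓕 G W b T) := by
      rw [sum_congr hTab (fun _ _ => rfl), sum_insert (by
        rw [mem_insert, mem_singleton, not_or]
        exact ⟨hva.ne, hvb.ne⟩), sum_pair hab]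
    rw [hsum]
    rcases al6_three hm h4 hF hT hv dv with h0 | ⟨hbig, hcase⟩
    · -- `al6 v = 0`
      have key : ∀ x ∈ T, x ≠ v → 0 ≤ al6 𝓕 G W x T := by
        intro x hx hxv
        by_cases hd : 4 ≤ (nb G W x).card
        · have := al6_ge2 hm h4 hF hT hx hd hv dv
          linarith
        · have dx : (nb G W x).card = 3 := by
            have := min_deg hm ((mem_tris.1 hT).1 hx)
            omega
          rcases al6_three hm h4 hF hT hx dx with h | ⟨h, -⟩
          · rw [h]
          · have := h v hv hxv.symm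
            omega
      have h1 := key a haT hva.ne.symm
      have h2 := key b hbT hvb.ne.symm
      linarith
    · have hda := hbig a haT hva.ne.symm
      have hdb := hbig b hbT hvb.ne.symm
      have ha1 := al6_ge2 hm h4 hF hT haT hda hv dv
      have hb1 := al6_ge2 hm h4 hF hT hbT hdb hv dv
      have ha := al6_one hm h4 hF hT haT hda hv dv
      have hb := al6_one hm h4 hF hT hbT hdb hv dv
      rcases hcase with hc | ⟨hc, z, hz, dz, tz⟩
      · linarith
      · rcases ha with ⟨ha2, -, ha3⟩ | ⟨-, ha⟩ | ⟨da, ta, ea, -⟩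
        · rcases hb with ⟨hb2, -, hb3⟩ | ⟨-, hb⟩ | ⟨db, tb, eb, -⟩
          · have hB : Bad G W T := by
              refine ⟨v, hv, dv, ⟨z, hz, dz, tz⟩, fun x hx hxv => ?_⟩
              rw [hTab, mem_insert, mem_insert, mem_singleton] at hx
              rcases hx with rfl | rfl | rfl
              · exact absurd rfl hxv
              · exact ha2
              · exact hb2
            rw [ha3 hB, hb3 hB]
            linarith
          · linarith
          · have := al6_four hm h4 hF hT hv hbT haT hvb.ne hva.ne hab.symm dv hz dz db tb ha2.1 eb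
            linarith
        · linarith
        · rcases hb with ⟨hb2, -, -⟩ | ⟨-, hb⟩ | ⟨db, -, -, -⟩
          · have := al6_four hm h4 hF hT hv haT hbT hva.ne hvb.ne hab dv hz dz da ta hb2.1 ea
            linarith
          · linarith
          · have := al6_four hm h4 hF hT hv haT hbT hva.ne hvb.ne hab dv hz dz da ta db ea
            linarith
  · push Not at h3
    have hd : ∀ x ∈ T, 4 ≤ (nb G W x).card := by
      intro x hx
      have h1 := min_deg hm ((mem_tris.1 hT).1 hx)
      have h2 := h3 x hx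
      omega
    have hnB : ¬ Bad G W T := by
      rintro ⟨v, hv, dv, -⟩
      exact h3 v hv dv
    have hcl : ∀ x ∈ T, 2 ≤ al6 𝓕 G W x T ∨ (-1 ≤ al6 𝓕 G W x T ∧ (nb G W x).card = 4 ∧
        (BadAt G W T x ∨ TwoAt G W T x)) := by
      intro x hx
      rcases al6_big hm h4 hF hT hx (hd x hx) with h | ⟨-, h⟩ | ⟨h1, -, -, h2, h3'⟩
      · by_cases hob : Ob G W x T
        · right
          refine ⟨?_, h.1, Or.inl (badAt_of_ob h4 hT hx h.1 hob)⟩
          unfold al6
          rw [if_pos h, if_neg hnB, if_pos hob]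
        · left
          unfold al6
          rw [if_pos h, if_neg hnB, if_neg hob]
      · left
        linarith
      · rcases h3' with h3' | h3'
        · exact Or.inl h3'
        · exact Or.inr ⟨by linarith, h1, Or.inr h3'⟩
    by_cases hex : ∃ x ∈ T, 2 ≤ al6 𝓕 G W x T
    · obtain ⟨v, hv, hv1⟩ := hex
      obtain ⟨a, b, hTab, hab, hva, hvb, hadj, -, haW, hbW⟩ := tri_cases hT hv
      have haT : a ∈ T := by rw [hTab]; simp
      have hbT : b ∈ T := by rw [hTab]; simp
      have hsum : ∑ x ∈ T, al6 𝓕 G W x T =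
          al6 𝓕 G W v T + (al6 𝓕 G W a T + al6 𝓕 G W b T) := by
        rw [sum_congr hTab (fun _ _ => rfl), sum_insert (by
          rw [mem_insert, mem_singleton, not_or]
          exact ⟨hva.ne, hvb.ne⟩), sum_pair hab]
      rw [hsum]
      have h1 : -1 ≤ al6 𝓕 G W a T := by
        rcases hcl a haT with h | ⟨h, -⟩ <;> linarith
      have h2 : -1 ≤ al6 𝓕 G W b T := by
        rcases hcl b hbT with h | ⟨h, -⟩ <;> linarith
      linarith
    · exfalso
      push Not at hex
      refine c678' hm h4 h5 h6 hT (fun x hx => ?_)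
      rcases hcl x hx with h | ⟨-, h1, h2⟩
      · exact absurd h (not_le.2 (hex x hx))
      · exact ⟨h1, h2⟩

end Disch6Aux

open Disch6Aux

theorem charge_nonneg6 (hm : Min G W) (h4 : NoC4 G) (h5 : NoC5 G) (h6 : NoTTT G)
    (hF : Fam G W 𝓕) : 0 ≤ ∑ v ∈ W, cg 𝓕 G W v := by
  classical
  rw [← sum_rest6]
  have key : (0 : ℚ) ≤ ((∑ v ∈ W, rest6 𝓕 G W v : ℤ) : ℚ) := by
    push_cast
    rw [← sum_filter_add_sum_filter_not W (fun v => (tr G W v).card = 0)]
    have h1 : 0 ≤ ∑ v ∈ W.filter (fun v => (tr G W v).card = 0), (rest6 𝓕 G W v : ℚ) := by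
      apply sum_nonneg
      intro v hv
      rw [mem_filter] at hv
      exact_mod_cast rest6_nonneg hm h4 hF hv.1 hv.2
    have h2 : ∑ T ∈ tris G W, ∑ x ∈ T, al6 𝓕 G W x T ≤
        ∑ v ∈ W.filter (fun v => ¬ (tr G W v).card = 0), (rest6 𝓕 G W v : ℚ) := by
      rw [double, ← sum_filter_add_sum_filter_not W (fun v => (tr G W v).card = 0)]
      rw [sum_eq_zero (s := W.filter (fun v => (tr G W v).card = 0)), zero_add]
      · apply sum_le_sum
        intro v hv
        rw [mem_filter] at hv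
        exact al6_sum_le h4 hF hv.1 hv.2
      · intro v hv
        rw [mem_filter, card_eq_zero] at hv
        rw [hv.2, sum_empty]
    have h3 : 0 ≤ ∑ T ∈ tris G W, ∑ x ∈ T, al6 𝓕 G W x T :=
      sum_nonneg (fun T hT => tri6_nonneg hm h4 h5 h6 hF hT)
    linarith
  exact_mod_cast key

end Pool.Agent.Lib.SVU
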