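import Pool.Agent.Lib.SVU.Defs

/-!
# SVU.Flow6: the first discharging (along free edges)

A vertex `u` of degree at least 4 sends `14 - hh v` to every free neighbour `v` of type (1,1) and 5
to every star; a vertex of type (0,3) sends 10 to every neighbour of type (1,1).
Compare SVT/Flow.lean (`sd`, `rest`, `out_eq`, `rest_big`, `rest_z`, `rest_a`).
`rest6_z` (degree 3, no triangle; `fr G W v = nb G W v`): by `SVT.c1` (two nonadjacent 3-neighbours
of a 3-vertex are impossible; `fr_nonadj`) at most one neighbour has degree 3.  If `ones G W v` is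
empty, nothing is sent (and received ≥ 0).  Otherwise `ones G W v = {n}`, 10 is sent, and the two
other neighbours have degree at least 4 (`min_deg`) and send 5 each (`v ∈ stars`, by `fr_symm`).
`cg v = hh v ≥ 0`.
-/

set_option autoImplicit false
set_option linter.unusedSectionVars false

namespace Pool.Agent.Lib.SVU

open Finset Pool.Agent.Lib.SVT

variable {V : Type*} [Fintype V] [DecidableEq V] {G : SimpleGraph V} {W : Finset V}
variable {𝓕 : Finset (Finset (Sym2 V))}

/-- charge sent from `u` to `v` -/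
noncomputable def sd6 (𝓕 : Finset (Finset (Sym2 V))) (G : SimpleGraph V) (W : Finset V)
    (u v : V) : ℤ := by
  classical
  exact
    if v ∈ ones G W u then
      (if 4 ≤ (nb G W u).card then 14 - hh 𝓕 G W v else if (tr G W u).card = 0 then 10 else 0)
    else (if v ∈ stars G W u ∧ 4 ≤ (nb G W u).card then 5 else 0)

/-- the charge after the first discharging -/
noncomputable def rest6 (𝓕 : Finset (Finset (Sym2 V))) (G : SimpleGraph V) (W : Finset V)
    (v : V) : ℤ :=
  cg 𝓕 G W v + ∑ u ∈ W, sd6 𝓕 G W u v - ∑ u ∈ W, sd6 𝓕 G W v u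

namespace Flow6Aux

lemma ones_fr {v u : V} (h : u ∈ ones G W v) : u ∈ fr G W v := (mem_ones.1 h).1

lemma stars_fr {v u : V} (h : u ∈ stars G W v) : u ∈ fr G W v := (mem_stars.1 h).1

lemma not_ones {u v : V} (h : (tr G W v).card ≠ 1) : v ∉ ones G W u := fun h1 =>
  h (mem_ones.1 h1).2.2

lemma not_ones' {u v : V} (h : (nb G W v).card ≠ 3) : v ∉ ones G W u := fun h1 =>
  h (mem_ones.1 h1).2.1

lemma not_stars {u v : V} (h : (tr G W v).card ≠ 0) : v ∉ stars G W u := fun h1 =>
  h (mem_stars.1 h1).2.2.1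

lemma not_stars' {u v : V} (h : (nb G W v).card ≠ 3) : v ∉ stars G W u := fun h1 =>
  h (mem_stars.1 h1).2.1

/-- nothing is received by a vertex of degree at least 4 -/
lemma in_zero6 {v : V} (h : 4 ≤ (nb G W v).card) : ∑ u ∈ W, sd6 𝓕 G W u v = 0 := by
  apply sum_eq_zero
  intro u _
  unfold sd6
  rw [if_neg (not_ones' (by omega)), if_neg]
  rintro ⟨h1, -⟩
  exact not_stars' (by omega) h1

/-- what a vertex of degree at least 4 sends -/
lemma out_big {v : V} (h : 4 ≤ (nb G W v).card) :
    ∑ u ∈ W, sd6 𝓕 G W v u =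
      ∑ n ∈ ones G W v, (14 - hh 𝓕 G W n) + 5 * ((stars G W v).card : ℤ) := by
  classical
  have h1 : ∀ u ∈ W, sd6 𝓕 G W v u =
      (if u ∈ ones G W v then 14 - hh 𝓕 G W u else 0) + (if u ∈ stars G W v then 5 else 0) := by
    intro u _
    unfold sd6
    by_cases h2 : u ∈ ones G W v
    · have h3 : u ∉ stars G W v := not_stars (by
        have := (mem_ones.1 h2).2.2
        omega)
      rw [if_pos h2, if_pos h, if_pos h2, if_neg h3, add_zero]
    · rw [if_neg h2, if_neg h2, zero_add]
      by_cases h3 : u ∈ stars G W v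
      · rw [if_pos ⟨h3, h⟩, if_pos h3]
      · rw [if_neg (fun h4 => h3 h4.1), if_neg h3]
  rw [sum_congr rfl h1, sum_add_distrib, ← sum_filter, ← sum_filter, sum_const, nsmul_eq_mul]
  have h2 : W.filter (fun u => u ∈ ones G W v) = ones G W v := by
    ext u
    rw [mem_filter]
    exact ⟨fun h => h.2, fun h => ⟨fr_sub G W v (ones_fr h), h⟩⟩
  have h3 : W.filter (fun u => u ∈ stars G W v) = stars G W v := by
    ext u
    rw [mem_filter]
    exact ⟨fun h => h.2, fun h => ⟨fr_sub G W v (stars_fr h), h⟩⟩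
  rw [h2, h3, mul_comm]

/-- what a vertex of degree less than 4 sends -/
lemma out_small {v : V} (h : ¬ 4 ≤ (nb G W v).card) :
    ∑ u ∈ W, sd6 𝓕 G W v u =
      (if (tr G W v).card = 0 then 10 else 0) * ((ones G W v).card : ℤ) := by
  classical
  have h1 : ∀ u ∈ W, sd6 𝓕 G W v u =
      (if u ∈ ones G W v then (if (tr G W v).card = 0 then 10 else 0) else 0) := by
    intro u _
    unfold sd6
    by_cases h2 : u ∈ ones G W v
    · rw [if_pos h2, if_neg h, if_pos h2]
    · rw [if_neg h2, if_neg h2, if_neg (fun h4 => h h4.2)]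
  rw [sum_congr rfl h1, ← sum_filter, sum_const, nsmul_eq_mul]
  have h2 : W.filter (fun u => u ∈ ones G W v) = ones G W v := by
    ext u
    rw [mem_filter]
    exact ⟨fun h => h.2, fun h => ⟨fr_sub G W v (ones_fr h), h⟩⟩
  rw [h2, mul_comm]

end Flow6Aux

open Flow6Aux

theorem sum_rest6 (𝓕 : Finset (Finset (Sym2 V))) (G : SimpleGraph V) (W : Finset V) :
    ∑ v ∈ W, rest6 𝓕 G W v = ∑ v ∈ W, cg 𝓕 G W v := by
  unfold rest6
  rw [sum_sub_distrib, sum_add_distrib]
  have : ∑ v ∈ W, ∑ u ∈ W, sd6 𝓕 G W u v = ∑ v ∈ W, ∑ u ∈ W, sd6 𝓕 G W v u := sum_comm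
  rw [this]
  ring

/-- degree at least 4 -/
theorem rest6_big {v : V} (h : 4 ≤ (nb G W v).card) :
    rest6 𝓕 G W v = 28 * ((nb G W v).card : ℤ) - 14 * ((tr G W v).card : ℤ) - 84 + hh 𝓕 G W v
      - ∑ n ∈ ones G W v, (14 - hh 𝓕 G W n) - 5 * ((stars G W v).card : ℤ) := by
  unfold rest6 cg
  rw [in_zero6 h, out_big h]
  ring

/-- degree 3, no triangle -/
theorem rest6_z (hm : Min G W) (h4 : NoC4 G) (hF : Fam G W 𝓕) {v : V} (hv : v ∈ W)
    (h : (nb G W v).card = 3) (ht : (tr G W v).card = 0) : 0 ≤ rest6 𝓕 G W v := by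
  classical
  have hin0 : ∀ u ∈ W, 0 ≤ sd6 𝓕 G W u v := by
    intro u _
    unfold sd6
    rw [if_neg (not_ones (by omega))]
    split_ifs <;> norm_num
  have hh0 := hh_nonneg hF v
  have hcg : cg 𝓕 G W v = hh 𝓕 G W v := by
    unfold cg
    rw [h, ht]
    push_cast
    ring
  have hout : ∑ u ∈ W, sd6 𝓕 G W v u = 10 * ((ones G W v).card : ℤ) := by
    rw [out_small (by omega), if_pos ht]
  unfold rest6
  rw [hcg, hout]
  rcases (ones G W v).eq_empty_or_nonempty with he | ⟨n, hn⟩
  · rw [he, card_empty]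
    have := sum_nonneg hin0
    push_cast
    omega
  · have hnf := ones_fr hn
    have hnn := (mem_fr.1 hnf).1
    -- every other neighbour has degree at least 4
    have key : ∀ u ∈ nb G W v, u ≠ n → 4 ≤ (nb G W u).card := by
      intro u hu hun
      have h1 := min_deg hm (mem_nb.1 hu).1
      by_contra h2
      exact c1 hm hv hnn hu (Ne.symm hun) (fr_nonadj hv hnf hu) h (mem_ones.1 hn).2.1 (by omega)
    have hone : ones G W v = {n} := by
      ext u
      rw [mem_singleton]
      constructor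
      · intro hu
        by_contra hne
        have h1 := key u (mem_fr.1 (ones_fr hu)).1 hne
        have h2 := (mem_ones.1 hu).2.1
        omega
      · rintro rfl
        exact hn
    rw [hone, card_singleton]
    -- the two other neighbours
    have hsub : (nb G W v).erase n ⊆ W := fun u hu => (mem_nb.1 (mem_of_mem_erase hu)).1
    have hcard : ((nb G W v).erase n).card = 2 := by
      rw [card_erase_of_mem hnn, h]
    have hfr : fr G W v = nb G W v := by
      have h1 : fr G W v ⊆ nb G W v := fun u hu => (mem_fr.1 hu).1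
      refine eq_of_subset_of_card_le h1 ?_
      have := fr_card h4 hv
      omega
    have hfive : ∀ u ∈ (nb G W v).erase n, sd6 𝓕 G W u v = 5 := by
      intro u hu
      rw [mem_erase] at hu
      unfold sd6
      rw [if_neg (not_ones (by omega)), if_pos]
      refine ⟨mem_stars.2 ⟨fr_symm hv (by rw [hfr]; exact hu.2), h, ht, ⟨n, hn⟩⟩, key u hu.2 hu.1⟩
    have h1 : ∑ u ∈ (nb G W v).erase n, sd6 𝓕 G W u v ≤ ∑ u ∈ W, sd6 𝓕 G W u v :=
      sum_le_sum_of_subset_of_nonneg hsub (fun u hu _ => hin0 u hu)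
    rw [sum_congr rfl hfive, sum_const, hcard] at h1
    push_cast
    have h2 : (2 : ℕ) • (5 : ℤ) = 10 := by norm_num
    rw [h2] at h1
    omega

/-- degree 3 in a triangle: the unique free neighbour `z` -/
theorem rest6_a (h4 : NoC4 G) {v : V} (hv : v ∈ W) (h : (nb G W v).card = 3)
    (ht : (tr G W v).card = 1) : ∃ z, fr G W v = {z} ∧
      rest6 𝓕 G W v = -14 + hh 𝓕 G W v + (if 4 ≤ (nb G W z).card then 14 - hh 𝓕 G W v
        else if (tr G W z).card = 0 then 10 else 0) := by
  classical
  have h1 := fr_card h4 hv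
  rw [h, ht] at h1
  obtain ⟨z, hz⟩ := card_eq_one.1 (show (fr G W v).card = 1 by omega)
  have hzf : z ∈ fr G W v := by rw [hz]; simp
  refine ⟨z, hz, ?_⟩
  unfold rest6 cg
  have h2 : ∑ u ∈ W, sd6 𝓕 G W u v = (if 4 ≤ (nb G W z).card then 14 - hh 𝓕 G W v
        else if (tr G W z).card = 0 then 10 else 0) := by
    rw [sum_eq_single z]
    · unfold sd6
      rw [if_pos (mem_ones.2 ⟨fr_symm hv hzf, h, ht⟩)]
    · intro u hu huz
      unfold sd6
      rw [if_neg, if_neg]
      · rintro ⟨h3, -⟩
        exact not_stars (by omega) h3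
      · intro h3
        have := fr_symm hu (ones_fr h3)
        rw [hz, mem_singleton] at this
        exact huz this
    · intro h3
      exact absurd (fr_sub G W v hzf) h3
  have h5 : ∑ u ∈ W, sd6 𝓕 G W v u = 0 := by
    rw [out_small (by omega), if_neg (by omega), zero_mul]
  rw [h5, h2, h, ht]
  push_cast
  ring

end Pool.Agent.Lib.SVU
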