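import Pool.Agent.Lib.SVU.Count6

/-!
# SVU.Four: the graphs of the class are 4-colourable (3-degenerate)

For nonempty `W` take `𝓕` from `exists_fam`; some `v ∈ W` has `cg < 0`; `hh ≥ 0` (`hh_nonneg`),
`2 |tr v| ≤ |nb v|` (`fr_card`), so `28 d - 7 d - 84 ≤ cg < 0`, `d ≤ 3`.  Induction on the size of `W`:
every `W` has a colouring `ψ : V → Fin 4` proper on `W`: remove such a `v`, colour `W.erase v`, give `v`
a colour not used by its at most 3 neighbours in `W`.
-/

set_option autoImplicit false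
set_option linter.unusedSectionVars false

namespace Pool.Agent.Lib.SVU

open Finset Pool.Agent.Lib.SVT

variable {V : Type*} [Fintype V] [DecidableEq V] {G : SimpleGraph V}

namespace FourAux

/-- a vertex with at most three neighbours -/
theorem low_deg (hML : ML (edg G univ)) (hc : Cyc6 G) (h4 : NoC4 G) {W : Finset V}
    (hW : W.Nonempty) : ∃ v ∈ W, (nb G W v).card ≤ 3 := by
  obtain ⟨𝓕, hF, hsum⟩ := exists_fam hML hc hW
  obtain ⟨v, hv, hneg⟩ : ∃ v ∈ W, cg 𝓕 G W v < 0 := by
    by_contra hcon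
    push Not at hcon
    exact absurd (Finset.sum_nonneg hcon) (not_le.2 hsum)
  refine ⟨v, hv, ?_⟩
  have h1 := hh_nonneg hF v
  have h2 := fr_card h4 hv
  unfold cg at hneg
  omega

theorem col (hML : ML (edg G univ)) (hc : Cyc6 G) (h4 : NoC4 G) (k : ℕ) :
    ∀ W : Finset V, W.card = k →
      ∃ ψ : V → Fin 4, ∀ u ∈ W, ∀ v ∈ W, G.Adj u v → ψ u ≠ ψ v := by
  classical
  induction k with
  | zero =>
    intro W hW
    refine ⟨fun _ => 0, fun u hu => ?_⟩
    rw [card_eq_zero] at hW
    rw [hW] at hu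
    exact absurd hu (notMem_empty u)
  | succ k ih =>
    intro W hW
    obtain ⟨v, hv, hd⟩ := low_deg hML hc h4 (W := W) (card_pos.1 (by omega))
    obtain ⟨ψ, hψ⟩ := ih (W.erase v) (by rw [card_erase_of_mem hv, hW]; rfl)
    obtain ⟨c, hcc⟩ : ∃ c : Fin 4, c ∉ (nb G W v).image ψ := by
      by_contra hcon
      push Not at hcon
      have h1 : (univ : Finset (Fin 4)) ⊆ (nb G W v).image ψ := fun c _ => hcon c
      have h2 := card_le_card h1
      have h3 : ((nb G W v).image ψ).card ≤ (nb G W v).card := card_image_le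
      rw [card_univ, Fintype.card_fin] at h2
      omega
    have key : ∀ u ∈ W, G.Adj v u → c ≠ ψ u := by
      rintro u hu huv rfl
      exact hcc (mem_image.2 ⟨u, mem_nb.2 ⟨hu, huv⟩, rfl⟩)
    refine ⟨fun x => if x = v then c else ψ x, fun a ha b hb hab => ?_⟩
    beta_reduce
    by_cases ha' : a = v
    · have hb' : b ≠ v := by
        rintro rfl
        exact hab.ne ha'
      rw [if_pos ha', if_neg hb']
      rw [ha'] at hab
      exact key b hb hab
    · by_cases hb' : b = v
      · rw [if_neg ha', if_pos hb']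
        rw [hb'] at hab
        exact (key a ha hab.symm).symm
      · rw [if_neg ha', if_neg hb']
        exact hψ a (mem_erase.2 ⟨ha', ha⟩) b (mem_erase.2 ⟨hb', hb⟩) hab

end FourAux

theorem four_col (hML : ML (edg G univ)) (hc : Cyc6 G) (h4 : NoC4 G) :
    ∃ ψ : V → Fin 4, ∀ u v, G.Adj u v → ψ u ≠ ψ v := by
  obtain ⟨ψ, hψ⟩ := FourAux.col hML hc h4 _ univ rfl
  exact ⟨ψ, fun u v h => hψ u (mem_univ u) v (mem_univ v) h⟩

end Pool.Agent.Lib.SVU
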