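import Pool.Agent.Lib.SVU.Defs
import Pool.Agent.Lib.SVT.Circ

/-!
# SVU.LocK: six-element faces at a vertex `x`

A neighbour `p` of `x` is charged if it is in `ones G W x` (a free neighbour of type (1,1)) or not
free.
-/

set_option autoImplicit false
set_option linter.unusedSectionVars false

namespace Pool.Agent.Lib.SVU

open Finset Pool.Agent.Lib.SVT

variable {V : Type*} [Fintype V] [DecidableEq V] {G : SimpleGraph V} {W : Finset V}
variable {𝓕 : Finset (Finset (Sym2 V))}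

theorem inT_of_not_free {x p : V} (hp : p ∈ nb G W x) (hf : p ∉ fr G W x) : InT G x p := by
  by_contra hcon
  refine hf (mem_fr.2 ⟨hp, fun T hT hpT => hcon ?_⟩)
  obtain ⟨h1, h2⟩ := mem_tr.1 hT
  exact inT_of_tri h1 h2 hpT (mem_nb.1 hp).2.ne

/-- the triangle edge at a neighbour of type (1,1) -/
theorem one_next (h4 : NoC4 G) (hF : Fam G W 𝓕) {x p : V} (hx : x ∈ W) (hp : p ∈ ones G W x)
    {F : Finset (Sym2 V)} (hFF : F ∈ 𝓕) (h : s(x, p) ∈ F) :
    ∃ q, q ≠ x ∧ q ≠ p ∧ G.Adj p q ∧ s(p, q) ∈ F ∧ InT G p q := by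
  classical
  obtain ⟨h1, h2, h3⟩ := mem_ones.1 hp
  obtain ⟨T, hT⟩ := card_pos.1 (show 0 < (tr G W p).card by omega)
  obtain ⟨hT1, hT2⟩ := mem_tr.1 hT
  obtain ⟨a, b, e1, hab, h5, h6, h7, -, ha, hb⟩ := tri_cases hT1 hT2
  have hxp := fr_symm hx h1
  have hxn : x ∈ nb G W p := (mem_fr.1 hxp).1
  have hxT : x ∉ T := (mem_fr.1 hxp).2 T hT
  rw [e1, mem_insert, mem_insert, mem_singleton] at hxT
  have hxa : x ≠ a := fun h => hxT (Or.inr (Or.inl h))
  have hxb : x ≠ b := fun h => hxT (Or.inr (Or.inr h))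
  have hsub : ({x, a, b} : Finset V) ⊆ nb G W p := by
    intro y hy
    rw [mem_insert, mem_insert, mem_singleton] at hy
    rcases hy with rfl | rfl | rfl
    · exact hxn
    · exact mem_nb.2 ⟨ha, h5⟩
    · exact mem_nb.2 ⟨hb, h6⟩
  have hc3 : ({x, a, b} : Finset V).card = 3 := card_eq_three.2 ⟨x, a, b, hxa, hxb, hab, rfl⟩
  have hnb : ({x, a, b} : Finset V) = nb G W p := eq_of_subset_of_card_le hsub (by rw [h2, hc3])
  have hs : s(p, x) ∈ F := by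
    rw [Sym2.eq_swap]
    exact h
  obtain ⟨w, hw1, hw2, hw3⟩ := next hF hFF hs
  rw [← hnb, mem_insert, mem_insert, mem_singleton] at hw3
  have hwT : w ∈ T := by
    rw [e1, mem_insert, mem_insert, mem_singleton]
    rcases hw3 with h | h | h
    · exact absurd h hw1
    · exact Or.inr (Or.inl h)
    · exact Or.inr (Or.inr h)
  have hpw : G.Adj p w := by
    rcases hw3 with h | h | h
    · exact absurd h hw1
    · rw [h]; exact h5
    · rw [h]; exact h6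
  exact ⟨w, hw1, hpw.ne', hpw, hw2, inT_of_tri hT1 hT2 hwT hpw.ne⟩

theorem charged_unique (h4 : NoC4 G) (hF : Fam G W 𝓕) {x p p' : V} (hx : x ∈ W)
    (hp : p ∈ nb G W x) (hp' : p' ∈ nb G W x)
    (hc : p ∈ ones G W x ∨ p ∉ fr G W x) (hc' : p' ∈ ones G W x ∨ p' ∉ fr G W x)
    {F : Finset (Sym2 V)} (hFF : F ∈ 𝓕) (h6 : F.card = 6) (h : s(x, p) ∈ F) (h' : s(x, p') ∈ F) :
    p = p' := by
  classical
  rcases hF.size F hFF with h7 | ⟨T, hT, hFT⟩ | ⟨-, hC⟩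
  · omega
  · have := card_edg_tri (G := G) hT
    rw [← hFT] at this
    omega
  · rcases hc with hc | hc <;> rcases hc' with hc' | hc'
    · obtain ⟨q, q1, q2, q3, q4, q5⟩ := one_next h4 hF hx hc hFF h
      obtain ⟨q', q1', q2', q3', q4', q5'⟩ := one_next h4 hF hx hc' hFF h'
      rcases Sym2.eq_iff.1 (hC _ _ _ _ q4 q4' q5 q5') with ⟨e1, -⟩ | ⟨e1, e2⟩
      · exact e1
      · exfalso
        rw [e2] at q3
        exact fr_nonadj hx (mem_ones.1 hc).1 hp' q3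
    · obtain ⟨q, q1, q2, q3, q4, q5⟩ := one_next h4 hF hx hc hFF h
      rcases Sym2.eq_iff.1 (hC _ _ _ _ q4 h' q5 (inT_of_not_free hp' hc')) with
        ⟨e1, -⟩ | ⟨-, e2⟩
      · exact absurd e1 (mem_nb.1 hp).2.ne'
      · exact absurd e2 q1
    · obtain ⟨q, q1, q2, q3, q4, q5⟩ := one_next h4 hF hx hc' hFF h'
      rcases Sym2.eq_iff.1 (hC _ _ _ _ q4 h q5 (inT_of_not_free hp hc)) with
        ⟨e1, -⟩ | ⟨-, e2⟩
      · exact absurd e1 (mem_nb.1 hp').2.ne'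
      · exact absurd e2 q1
    · rcases Sym2.eq_iff.1 (hC _ _ _ _ h h' (inT_of_not_free hp hc) (inT_of_not_free hp' hc'))
        with ⟨-, e⟩ | ⟨e, -⟩
      · exact e
      · exact absurd e (mem_nb.1 hp').2.ne

theorem charged_next (h4 : NoC4 G) (hF : Fam G W 𝓕) {x p : V} (hx : x ∈ W)
    (hp : p ∈ nb G W x) (hc : p ∈ ones G W x ∨ p ∉ fr G W x)
    {F : Finset (Sym2 V)} (hFF : F ∈ 𝓕) (h6 : F.card = 6) (h : s(x, p) ∈ F) :
    ∃ w ∈ fr G W x, w ∉ ones G W x ∧ s(x, w) ∈ F := by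
  obtain ⟨w, h1, h2, h3⟩ := next hF hFF h
  have key : ¬ (w ∈ ones G W x ∨ w ∉ fr G W x) := fun hw =>
    h1 (charged_unique h4 hF hx hp h3 hc hw hFF h6 h h2).symm
  rw [not_or, not_not] at key
  exact ⟨w, key.2, key.1, h2⟩

/-- the member of a triangle edge with at most 6 elements which has not 6 elements is unique -/
theorem low_tri (h4 : NoC4 G) (hF : Fam G W 𝓕) {x p : V} {F F' : Finset (Sym2 V)}
    (h : F ∈ low 𝓕 s(x, p)) (h' : F' ∈ low 𝓕 s(x, p)) (h6 : F.card ≠ 6) (h6' : F'.card ≠ 6) :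
    F = F' := by
  obtain ⟨a1, a2, a3⟩ := mem_low.1 h
  obtain ⟨b1, b2, b3⟩ := mem_low.1 h'
  rcases hF.size F a1 with h7 | ⟨T, hT, hFT⟩ | ⟨h7, -⟩
  · omega
  · rcases hF.size F' b1 with h7 | ⟨T', hT', hFT'⟩ | ⟨h7, -⟩
    · omega
    · rw [hFT] at a2
      rw [hFT'] at b2
      obtain ⟨c1, c2, c3⟩ := mem_edg'.1 a2
      obtain ⟨-, d2, d3⟩ := mem_edg'.1 b2
      rw [hFT, hFT', tri_unique h4 hT hT' c1.ne c2 c3 d2 d3]
    · exact absurd h7 h6'
  · exact absurd h7 h6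

/-- a member with at most 6 elements through a free edge has 6 elements -/
theorem low_free (hF : Fam G W 𝓕) {x p : V} (hp : p ∈ fr G W x)
    {F : Finset (Sym2 V)} (h : F ∈ low 𝓕 s(x, p)) : F.card = 6 := by
  obtain ⟨a1, a2, a3⟩ := mem_low.1 h
  rcases hF.size F a1 with h7 | ⟨T, hT, hFT⟩ | ⟨h7, -⟩
  · omega
  · exfalso
    rw [hFT] at a2
    obtain ⟨-, c2, c3⟩ := mem_edg'.1 a2
    exact (mem_fr.1 hp).2 T (mem_tr.2 ⟨hT, c2⟩) c3
  · exact h7

end Pool.Agent.Lib.SVU
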