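import Pool.Agent.Lib.SVU.LocK

/-!
# SVU.LocL: a vertex of type (1,1)

Let `n ∈ ones G W x`, `T = {n, q₁, q₂}` its triangle, `nb G W n = {x, q₁, q₂}`,
`A = low 𝓕 s(n, x)` (all its members have 6 elements, `low_free`), `A_i = low 𝓕 s(n, q_i)`.
A member of `A_i` with 6 elements contains another edge at `n` (`next`), and this is not `s(n, q_j)`,
`j ≠ i` (it would be a second triangle edge, `charged_unique` at `n`), so it is `s(n, x)`: the
members of `A_i` with 6 elements lie in `A`, and no member of `A` lies in `A₁` and `A₂`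
(`charged_unique` at `n`).  At most one member of `A_i` has not 6 elements (`low_tri`).  So
`|A₁| + |A₂| ≤ |A| + 2` and `hh n = (2 - |A|) + (2 - |A₁|) + (2 - |A₂|) ≥ 4 - 2 |A|`.
(`s(x, n) = s(n, x)` is `Sym2.eq_swap`.)
-/

set_option autoImplicit false
set_option linter.unusedSectionVars false

namespace Pool.Agent.Lib.SVU

open Finset Pool.Agent.Lib.SVT

variable {V : Type*} [Fintype V] [DecidableEq V] {G : SimpleGraph V} {W : Finset V}
variable {𝓕 : Finset (Finset (Sym2 V))}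

namespace LocLAux

open Classical in
/-- all members but one of `low` have six elements -/
theorem card_low_le (h4 : NoC4 G) (hF : Fam G W 𝓕) (n q : V) :
    (low 𝓕 s(n, q)).card ≤ ((low 𝓕 s(n, q)).filter (fun F => F.card = 6)).card + 1 := by
  have h1 : ((low 𝓕 s(n, q)).filter (fun F => ¬ F.card = 6)).card ≤ 1 := by
    rw [card_le_one]
    intro F h F' h'
    rw [mem_filter] at h h'
    exact low_tri h4 hF h.1 h'.1 h.2 h'.2
  have h2 := card_filter_add_card_filter_not (s := low 𝓕 s(n, q)) (fun F => F.card = 6)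
  omega

end LocLAux

theorem loc_one (h4 : NoC4 G) (hF : Fam G W 𝓕) {x n : V} (hx : x ∈ W) (hn : n ∈ ones G W x) :
    4 ≤ hh 𝓕 G W n + 2 * ((low 𝓕 s(x, n)).card : ℤ) := by
  classical
  obtain ⟨hf, hc3, ht1⟩ := mem_ones.1 hn
  have hnW : n ∈ W := (mem_nb.1 (mem_fr.1 hf).1).1
  have hxf : x ∈ fr G W n := fr_symm hx hf
  obtain ⟨T, hT⟩ := card_eq_one.1 ht1
  have hTm : T ∈ tr G W n := by
    rw [hT]
    exact mem_singleton_self T
  obtain ⟨hTt, hnT⟩ := mem_tr.1 hTm
  obtain ⟨q₁, q₂, hTe, hq, a1, a2, a3, -, w1, w2⟩ := tri_cases hTt hnT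
  have hxT : x ∉ T := (mem_fr.1 hxf).2 T hTm
  have hq1T : q₁ ∈ T := by
    rw [hTe]
    simp
  have hq2T : q₂ ∈ T := by
    rw [hTe]
    simp
  have hx1 : x ≠ q₁ := fun e => hxT (e ▸ hq1T)
  have hx2 : x ≠ q₂ := fun e => hxT (e ▸ hq2T)
  have hm1 : q₁ ∈ nb G W n := mem_nb.2 ⟨w1, a1⟩
  have hm2 : q₂ ∈ nb G W n := mem_nb.2 ⟨w2, a2⟩
  have hmx : x ∈ nb G W n := (mem_fr.1 hxf).1
  have hnb : nb G W n = {x, q₁, q₂} := by
    symm
    refine eq_of_subset_of_card_le ?_ ?_
    · intro u hu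
      rw [mem_insert, mem_insert, mem_singleton] at hu
      rcases hu with rfl | rfl | rfl
      · exact hmx
      · exact hm1
      · exact hm2
    · rw [hc3, card_eq_three.2 ⟨x, q₁, q₂, hx1, hx2, hq, rfl⟩]
  have hf1 : q₁ ∉ fr G W n := fun h => (mem_fr.1 h).2 T hTm hq1T
  have hf2 : q₂ ∉ fr G W n := fun h => (mem_fr.1 h).2 T hTm hq2T
  -- a member with six elements contains at most one of the two triangle edges
  have no : ∀ F ∈ 𝓕, F.card = 6 → s(n, q₁) ∈ F → s(n, q₂) ∈ F → False := fun F h h6 h1 h2 =>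
    hq (charged_unique h4 hF hnW hm1 hm2 (Or.inr hf1) (Or.inr hf2) h h6 h1 h2)
  have sub1 : (low 𝓕 s(n, q₁)).filter (fun F => F.card = 6) ⊆ low 𝓕 s(n, x) := by
    intro F hF'
    rw [mem_filter, mem_low] at hF'
    obtain ⟨⟨h1, h2, h3⟩, h6⟩ := hF'
    obtain ⟨w, hw, hwF, hwn⟩ := next hF h1 h2
    rw [hnb, mem_insert, mem_insert, mem_singleton] at hwn
    rcases hwn with rfl | rfl | rfl
    · exact mem_low.2 ⟨h1, hwF, h3⟩
    · exact absurd rfl hw
    · exact absurd (no F h1 h6 h2 hwF) id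
  have sub2 : (low 𝓕 s(n, q₂)).filter (fun F => F.card = 6) ⊆ low 𝓕 s(n, x) := by
    intro F hF'
    rw [mem_filter, mem_low] at hF'
    obtain ⟨⟨h1, h2, h3⟩, h6⟩ := hF'
    obtain ⟨w, hw, hwF, hwn⟩ := next hF h1 h2
    rw [hnb, mem_insert, mem_insert, mem_singleton] at hwn
    rcases hwn with rfl | rfl | rfl
    · exact mem_low.2 ⟨h1, hwF, h3⟩
    · exact absurd (no F h1 h6 hwF h2) id
    · exact absurd rfl hw
  have hdis : Disjoint ((low 𝓕 s(n, q₁)).filter (fun F => F.card = 6))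
      ((low 𝓕 s(n, q₂)).filter (fun F => F.card = 6)) := by
    rw [disjoint_left]
    intro F h1 h2
    rw [mem_filter, mem_low] at h1 h2
    exact no F h1.1.1 h1.2 h1.1.2.1 h2.1.2.1
  have hsum : ((low 𝓕 s(n, q₁)).filter (fun F => F.card = 6)).card +
      ((low 𝓕 s(n, q₂)).filter (fun F => F.card = 6)).card ≤ (low 𝓕 s(n, x)).card := by
    rw [← card_union_of_disjoint hdis]
    exact card_le_card (union_subset sub1 sub2)
  have k1 := LocLAux.card_low_le h4 hF n q₁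
  have k2 := LocLAux.card_low_le h4 hF n q₂
  have hh' : hh 𝓕 G W n = (2 - ((low 𝓕 s(n, x)).card : ℤ)) +
      ((2 - ((low 𝓕 s(n, q₁)).card : ℤ)) + (2 - ((low 𝓕 s(n, q₂)).card : ℤ))) := by
    unfold hh
    rw [hnb, sum_insert (by
      rw [mem_insert, mem_singleton, not_or]
      exact ⟨hx1, hx2⟩), sum_pair hq]
  rw [hh', show s(x, n) = s(n, x) from Sym2.eq_swap]
  omega

end Pool.Agent.Lib.SVU
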