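import Pool.Agent.Lib.SVU.LocK

/-!
# SVU.LocN: the sides at a vertex `x`

Let `C = ones G W x ∪ (nb G W x \ fr G W x)` (charged neighbours) and `D = fr G W x \ ones G W x`, so
`nb G W x` is the disjoint union of `C` and `D`, and `nb \ fr` has `2 t` elements, `t = |tr G W x|`
(`fr_card`).  Let `Q` be a set of members with 6 elements that contains all members with 6 elements
through a charged edge `s(x, p)`, `p ∈ C`.  Each `F ∈ Q'` (the members with 6 elements through a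
charged edge) contains exactly one charged edge at `x` (`charged_unique`).  So
`∑_{p ∈ C} #(members of low s(x,p) with 6 elements) = |Q'| ≤ |Q|`.  For `p ∈ ones` all members of
`low` have 6 elements (`low_free`); for `p ∉ fr` at most one has not (`low_tri`).  With
`s = ∑_{p ∉ fr} #(members of low s(x,p) with 6 elements)`:
`∑_{n ∈ ones} |low s(x,n)| + s ≤ |Q|`, and `hh x ≥ ∑_{n ∈ ones} (2 - |low s(x,n)|) +
∑_{p ∉ fr} (2 - |low s(x,p)|) ≥ 2 |ones| - ∑_{ones} |low| + 2 · 2t - (2t + s)`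
(the terms of `D` are nonnegative, `low_le`).  This is `sides`.
`loc_big`: by `charged_next` every member of `Q'` contains some `s(x, w)`, `w ∈ D`, and every such
edge is in at most 2 members: take `Q = Q'`, `|Q'| ≤ ∑_{w ∈ D} 2`.
-/

set_option autoImplicit false
set_option linter.unusedSectionVars false

namespace Pool.Agent.Lib.SVU

open Finset Pool.Agent.Lib.SVT

variable {V : Type*} [Fintype V] [DecidableEq V] {G : SimpleGraph V} {W : Finset V}
variable {𝓕 : Finset (Finset (Sym2 V))}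

namespace LocNAux

/-- the members with 6 elements through `s(x, p)` -/
noncomputable def c6 (𝓕 : Finset (Finset (Sym2 V))) (x p : V) : Finset (Finset (Sym2 V)) := by
  classical exact (low 𝓕 s(x, p)).filter (fun F => F.card = 6)

theorem mem_c6 {x p : V} {F : Finset (Sym2 V)} :
    F ∈ c6 𝓕 x p ↔ F ∈ low 𝓕 s(x, p) ∧ F.card = 6 := by
  classical
  unfold c6
  rw [mem_filter]

theorem ones_sub {x : V} : ones G W x ⊆ fr G W x := fun _ h => (mem_ones.1 h).1

theorem fr_sub {x : V} : fr G W x ⊆ nb G W x := fun _ h => (mem_fr.1 h).1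

theorem sum_c6 (h4 : NoC4 G) (hF : Fam G W 𝓕) {x : V} (hx : x ∈ W)
    (Q : Finset (Finset (Sym2 V)))
    (hQ : ∀ F ∈ 𝓕, F.card = 6 → ∀ p ∈ nb G W x, (p ∈ ones G W x ∨ p ∉ fr G W x) → s(x, p) ∈ F →
      F ∈ Q) :
    ∑ p ∈ ones G W x ∪ (nb G W x \ fr G W x), (c6 𝓕 x p).card ≤ Q.card := by
  classical
  have hC : ∀ p ∈ ones G W x ∪ (nb G W x \ fr G W x),
      p ∈ nb G W x ∧ (p ∈ ones G W x ∨ p ∉ fr G W x) := by
    intro p hp
    rw [mem_union, mem_sdiff] at hp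
    rcases hp with h | h
    · exact ⟨fr_sub (ones_sub h), Or.inl h⟩
    · exact ⟨h.1, Or.inr h.2⟩
  rw [← card_biUnion]
  · refine card_le_card ?_
    intro F hFm
    rw [mem_biUnion] at hFm
    obtain ⟨p, hp, hF1⟩ := hFm
    rw [mem_c6, mem_low] at hF1
    exact hQ F hF1.1.1 hF1.2 p (hC p hp).1 (hC p hp).2 hF1.1.2.1
  · intro p hp p' hp' hne
    change Disjoint (c6 𝓕 x p) (c6 𝓕 x p')
    rw [disjoint_left]
    intro F h1 h2
    rw [mem_c6, mem_low] at h1 h2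
    rw [mem_coe] at hp hp'
    exact hne (charged_unique h4 hF hx (hC p hp).1 (hC p' hp').1 (hC p hp).2 (hC p' hp').2
      h1.1.1 h1.2 h1.1.2.1 h2.1.2.1)

theorem c6_ones (hF : Fam G W 𝓕) {x p : V} (hp : p ∈ ones G W x) :
    c6 𝓕 x p = low 𝓕 s(x, p) := by
  ext F
  rw [mem_c6]
  exact ⟨fun h => h.1, fun h => ⟨h, low_free hF (ones_sub hp) h⟩⟩

theorem c6_tri (h4 : NoC4 G) (hF : Fam G W 𝓕) {x p : V} :
    (low 𝓕 s(x, p)).card ≤ (c6 𝓕 x p).card + 1 := by
  classical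
  have h1 : (c6 𝓕 x p).card + ((low 𝓕 s(x, p)).filter (fun F => ¬ F.card = 6)).card =
      (low 𝓕 s(x, p)).card := by
    have : c6 𝓕 x p = (low 𝓕 s(x, p)).filter (fun F => F.card = 6) := by
      ext F
      rw [mem_c6, mem_filter]
    rw [this]
    exact card_filter_add_card_filter_not (s := low 𝓕 s(x, p)) (fun F => F.card = 6)
  have h2 : ((low 𝓕 s(x, p)).filter (fun F => ¬ F.card = 6)).card ≤ 1 := by
    rw [card_le_one]
    intro a ha b hb
    rw [mem_filter] at ha hb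
    exact low_tri h4 hF ha.1 hb.1 ha.2 hb.2
  omega

end LocNAux

open LocNAux in
theorem sides (h4 : NoC4 G) (hF : Fam G W 𝓕) {x : V} (hx : x ∈ W)
    (Q : Finset (Finset (Sym2 V)))
    (hQ : ∀ F ∈ 𝓕, F.card = 6 → ∀ p ∈ nb G W x, (p ∈ ones G W x ∨ p ∉ fr G W x) → s(x, p) ∈ F →
      F ∈ Q) :
    ∃ s : ℕ, ∑ n ∈ ones G W x, (low 𝓕 s(x, n)).card + s ≤ Q.card ∧
      2 * ((ones G W x).card : ℤ) + 2 * ((tr G W x).card : ℤ) ≤
        hh 𝓕 G W x + ((∑ n ∈ ones G W x, (low 𝓕 s(x, n)).card : ℕ) : ℤ) + (s : ℤ) := by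
  classical
  have hdis : Disjoint (ones G W x) (nb G W x \ fr G W x) := by
    rw [disjoint_left]
    intro u h1 h2
    exact (mem_sdiff.1 h2).2 (ones_sub h1)
  have hsum := sum_c6 h4 hF hx Q hQ
  rw [sum_union hdis] at hsum
  refine ⟨∑ p ∈ nb G W x \ fr G W x, (c6 𝓕 x p).card, ?_, ?_⟩
  · have : ∑ n ∈ ones G W x, (low 𝓕 s(x, n)).card = ∑ p ∈ ones G W x, (c6 𝓕 x p).card :=
      sum_congr rfl fun p hp => by rw [c6_ones hF hp]
    rw [this]
    exact hsum
  · have hsplit : hh 𝓕 G W x = ∑ u ∈ ones G W x, (2 - ((low 𝓕 s(x, u)).card : ℤ)) +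
        ∑ u ∈ fr G W x \ ones G W x, (2 - ((low 𝓕 s(x, u)).card : ℤ)) +
        ∑ u ∈ nb G W x \ fr G W x, (2 - ((low 𝓕 s(x, u)).card : ℤ)) := by
      unfold hh
      rw [← sum_sdiff (fr_sub (G := G) (W := W) (x := x)),
        ← sum_sdiff (ones_sub (G := G) (W := W) (x := x))]
      ring
    have hD : 0 ≤ ∑ u ∈ fr G W x \ ones G W x, (2 - ((low 𝓕 s(x, u)).card : ℤ)) := by
      refine sum_nonneg fun u _ => ?_
      have := low_le hF s(x, u)
      omega
    have hT : ∑ u ∈ nb G W x \ fr G W x, ((1 : ℤ) - ((c6 𝓕 x u).card : ℤ)) ≤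
        ∑ u ∈ nb G W x \ fr G W x, (2 - ((low 𝓕 s(x, u)).card : ℤ)) := by
      refine sum_le_sum fun u _ => ?_
      have := c6_tri h4 hF (x := x) (p := u)
      omega
    have hO : ∑ u ∈ ones G W x, (2 - ((low 𝓕 s(x, u)).card : ℤ)) =
        2 * ((ones G W x).card : ℤ) - ((∑ n ∈ ones G W x, (low 𝓕 s(x, n)).card : ℕ) : ℤ) := by
      rw [sum_sub_distrib, sum_const, nsmul_eq_mul, Nat.cast_sum]
      ring
    have hT2 : ∑ u ∈ nb G W x \ fr G W x, ((1 : ℤ) - ((c6 𝓕 x u).card : ℤ)) =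
        ((nb G W x \ fr G W x).card : ℤ) -
          ((∑ p ∈ nb G W x \ fr G W x, (c6 𝓕 x p).card : ℕ) : ℤ) := by
      rw [sum_sub_distrib, sum_const, nsmul_eq_mul, Nat.cast_sum]
      ring
    have hcard : ((nb G W x \ fr G W x).card : ℤ) = 2 * ((tr G W x).card : ℤ) := by
      have h1 := fr_card h4 hx
      have h2 := card_sdiff_of_subset (fr_sub (G := G) (W := W) (x := x))
      have h3 := card_le_card (fr_sub (G := G) (W := W) (x := x))
      omega
    rw [hT2, hcard] at hT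
    rw [hsplit, hO]
    linarith

open LocNAux in
theorem loc_big (h4 : NoC4 G) (hF : Fam G W 𝓕) {x : V} (hx : x ∈ W) :
    ∃ s : ℕ, ∑ n ∈ ones G W x, (low 𝓕 s(x, n)).card + s ≤ 2 * (fr G W x \ ones G W x).card ∧
      2 * ((ones G W x).card : ℤ) + 2 * ((tr G W x).card : ℤ) ≤
        hh 𝓕 G W x + ((∑ n ∈ ones G W x, (low 𝓕 s(x, n)).card : ℕ) : ℤ) + (s : ℤ) := by
  classical
  set Q := 𝓕.filter (fun F => F.card = 6 ∧ ∃ p ∈ nb G W x,
    (p ∈ ones G W x ∨ p ∉ fr G W x) ∧ s(x, p) ∈ F) with hQ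
  obtain ⟨s, h1, h2⟩ := sides h4 hF hx Q (by
    intro F h1 h2 p h3 h5 h6
    rw [hQ, mem_filter]
    exact ⟨h1, h2, p, h3, h5, h6⟩)
  refine ⟨s, h1.trans ?_, h2⟩
  have hsub : Q ⊆ (fr G W x \ ones G W x).biUnion (fun w => 𝓕.filter (fun F => s(x, w) ∈ F)) := by
    intro F hFQ
    rw [hQ, mem_filter] at hFQ
    obtain ⟨h3, h5, p, h6, h7, h8⟩ := hFQ
    obtain ⟨w, hw1, hw2, hw3⟩ := charged_next h4 hF hx h6 h7 h3 h5 h8
    rw [mem_biUnion]
    exact ⟨w, mem_sdiff.2 ⟨hw1, hw2⟩, mem_filter.2 ⟨h3, hw3⟩⟩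
  refine (card_le_card hsub).trans (card_biUnion_le.trans ?_)
  refine (sum_le_sum fun w _ => hF.two s(x, w)).trans ?_
  rw [sum_const, smul_eq_mul, mul_comm]

end Pool.Agent.Lib.SVU
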