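import Pool.Agent.Lib.SVU.LocN
import Pool.Agent.Lib.SVU.Bridge

/-!
# SVU.LocS: a vertex whose only free neighbour that is not of type (1,1) is a star

Let `u ∈ stars G W x`, `v ∈ ones G W u` (`v ≠ x` because `x` has degree at least 4), `b` the third
neighbour of `u` (`nb G W u = {x, v, b}`).  Let `Q` be the set of the members with 6 elements through
a charged edge of `x`.  Each `F ∈ Q` contains `s(x, w)` with `w ∈ fr \ ones`, so `w = u`
(`charged_next`).  By `next` at `u` it contains `s(u, v)` or `s(u, b)`.  It does not contain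
`s(u, v)`: otherwise `one_next` gives a triangle edge `s(v, q)` in `F`, and the charged edge of `F`
at `x` gives a triangle edge `s(x, p)` or `s(p, q')` (`one_next`), which is equal to `s(v, q)` by
`Fam.size`; but `s(v, q) = s(x, p)` is impossible: `v ≠ x`, and `v = p` would make `x u v` a triangle
(`v` adjacent to `x` and `u`, `u` free); `s(v, q) = s(p, q')`: `v = p` as before, or `v = q'`,
`q = p`: the 4-cycle `x u v p` (`NoC4`; `x ≠ v`, `u ≠ p` since `p` is in `ones`, `tr u = 0`).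
So `F` contains `s(x, u)` and `s(u, b)`.
If `Q` had two members `F₁ ≠ F₂`, take a member `F₀` through `s(u, v)` (`cover`); `F₀ ≠ F₁, F₂`; by
`next` at `u` it contains `s(u, x)` or `s(u, b)`; this edge would be in three members, against
`Fam.two`.  So `|Q| ≤ 1`; apply `sides`.
-/

set_option autoImplicit false
set_option linter.unusedSectionVars false

namespace Pool.Agent.Lib.SVU

open Finset Pool.Agent.Lib.SVT

variable {V : Type*} [Fintype V] [DecidableEq V] {G : SimpleGraph V} {W : Finset V}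
variable {𝓕 : Finset (Finset (Sym2 V))}

namespace LocSAux

theorem no_uv (h4 : NoC4 G) (hF : Fam G W 𝓕) {x u v : V} (hx : x ∈ W)
    (hu : u ∈ fr G W x) (ht : (tr G W u).card = 0) (hv : v ∈ ones G W u) (hvx : v ≠ x)
    {F : Finset (Sym2 V)} (hFF : F ∈ 𝓕) (h6 : F.card = 6) {p : V} (hp : p ∈ nb G W x)
    (hc : p ∈ ones G W x ∨ p ∉ fr G W x) (h : s(x, p) ∈ F) : s(u, v) ∉ F := by
  classical
  intro huv
  have huW : u ∈ W := (mem_nb.1 (mem_fr.1 hu).1).1
  have hxu : G.Adj x u := (mem_nb.1 (mem_fr.1 hu).1).2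
  have huv' : G.Adj u v := (mem_nb.1 (mem_fr.1 (mem_ones.1 hv).1).1).2
  have hxp : G.Adj x p := (mem_nb.1 hp).2
  have hvp : v ≠ p := fun e => fr_nonadj hx hu (e ▸ hp) huv'
  obtain ⟨q, q1, q2, q3, q4, q5⟩ := one_next h4 hF huW hv hFF huv
  rcases hF.size F hFF with h7 | ⟨T, hT, hFT⟩ | ⟨-, hC⟩
  · omega
  · have := card_edg_tri (G := G) hT
    rw [← hFT] at this
    omega
  · rcases hc with hc | hc
    · obtain ⟨q', r1, r2, r3, r4, r5⟩ := one_next h4 hF hx hc hFF h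
      rcases Sym2.eq_iff.1 (hC _ _ _ _ q4 r4 q5 r5) with ⟨e1, -⟩ | ⟨e1, e2⟩
      · exact hvp e1
      · have hup : u ≠ p := by
          intro e
          have h1 := (mem_ones.1 hc).2.2
          rw [← e] at h1
          omega
        rw [e2] at q3
        exact h4 x u v p hvx.symm hup hxu huv' q3 hxp.symm
    · rcases Sym2.eq_iff.1 (hC _ _ _ _ q4 h q5 (inT_of_not_free hp hc)) with ⟨e1, -⟩ | ⟨e1, -⟩
      · exact hvx e1
      · exact hvp e1

end LocSAux

theorem loc_star (hm : Min G W) (h4 : NoC4 G) (hF : Fam G W 𝓕) {x u : V} (hx : x ∈ W)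
    (hd : 4 ≤ (nb G W x).card) (hu : u ∈ stars G W x) (hall : fr G W x \ ones G W x = {u}) :
    ∃ s : ℕ, ∑ n ∈ ones G W x, (low 𝓕 s(x, n)).card + s ≤ 1 ∧
      2 * ((ones G W x).card : ℤ) + 2 * ((tr G W x).card : ℤ) ≤
        hh 𝓕 G W x + ((∑ n ∈ ones G W x, (low 𝓕 s(x, n)).card : ℕ) : ℤ) + (s : ℤ) := by
  classical
  obtain ⟨huf, hu3, hut, v, hv⟩ := mem_stars.1 hu
  have hvf := (mem_ones.1 hv).1
  have hvx : v ≠ x := by
    intro e
    have h1 := (mem_ones.1 hv).2.1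
    rw [e] at h1
    omega
  have huW : u ∈ W := (mem_nb.1 (mem_fr.1 huf).1).1
  have hxu : x ∈ nb G W u := (mem_fr.1 (fr_symm hx huf)).1
  have hvu : v ∈ nb G W u := (mem_fr.1 hvf).1
  let Q : Finset (Finset (Sym2 V)) := 𝓕.filter (fun F => F.card = 6 ∧
    ∃ p ∈ nb G W x, (p ∈ ones G W x ∨ p ∉ fr G W x) ∧ s(x, p) ∈ F)
  have hQm : ∀ F, F ∈ Q ↔ F ∈ 𝓕 ∧ F.card = 6 ∧
      ∃ p ∈ nb G W x, (p ∈ ones G W x ∨ p ∉ fr G W x) ∧ s(x, p) ∈ F := fun F => mem_filter
  have hQ1 : ∀ F ∈ Q, F ∈ 𝓕 ∧ s(u, x) ∈ F ∧ s(u, v) ∉ F := by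
    intro F hFQ
    obtain ⟨h1, h2, p, hp, hc, h3⟩ := (hQm F).1 hFQ
    refine ⟨h1, ?_, LocSAux.no_uv h4 hF hx huf hut hv hvx h1 h2 hp hc h3⟩
    obtain ⟨w, w1, w2, w3⟩ := charged_next h4 hF hx hp hc h1 h2 h3
    have hw : w ∈ fr G W x \ ones G W x := mem_sdiff.2 ⟨w1, w2⟩
    rw [hall, mem_singleton] at hw
    rw [hw, Sym2.eq_swap] at w3
    exact w3
  have hcard : Q.card ≤ 1 := by
    rw [card_le_one]
    intro F₁ h1 F₂ h2
    by_contra hne
    obtain ⟨a1, a2, a3⟩ := hQ1 F₁ h1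
    obtain ⟨b1, b2, b3⟩ := hQ1 F₂ h2
    obtain ⟨F₀, c1, c2⟩ := cover hm hF (mem_edg'.2 ⟨(mem_nb.1 hvu).2, huW, (mem_nb.1 hvu).1⟩)
    have d1 : F₀ ≠ F₁ := fun e => a3 (e ▸ c2)
    have d2 : F₀ ≠ F₂ := fun e => b3 (e ▸ c2)
    obtain ⟨w₁, e1, e2, e3⟩ := next hF a1 a2
    obtain ⟨w₂, f1, f2, f3⟩ := next hF b1 b2
    obtain ⟨w, g1, g2, g3⟩ := next hF c1 c2
    have e4 : w₁ ≠ v := fun e => a3 (e ▸ e2)
    have f4 : w₂ ≠ v := fun e => b3 (e ▸ f2)
    have hnb : ({x, v, w₁} : Finset V) = nb G W u := by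
      refine eq_of_subset_of_card_le ?_ ?_
      · intro y hy
        rw [mem_insert, mem_insert, mem_singleton] at hy
        rcases hy with rfl | rfl | rfl
        · exact hxu
        · exact hvu
        · exact e3
      · rw [hu3, card_eq_three.2 ⟨x, v, w₁, hvx.symm, e1.symm, e4.symm, rfl⟩]
    rw [← hnb, mem_insert, mem_insert, mem_singleton] at f3 g3
    have hw12 : w₂ = w₁ := by
      rcases f3 with h | h | h
      · exact absurd h f1
      · exact absurd h f4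
      · exact h
    rw [hw12] at f2
    have key : ∀ e : Sym2 V, e ∈ F₀ → e ∈ F₁ → e ∈ F₂ → False := by
      intro e k0 k1 k2
      have hsub : ({F₀, F₁, F₂} : Finset (Finset (Sym2 V))) ⊆ 𝓕.filter (fun F => e ∈ F) := by
        intro F hFm
        rw [mem_insert, mem_insert, mem_singleton] at hFm
        rcases hFm with rfl | rfl | rfl
        · exact mem_filter.2 ⟨c1, k0⟩
        · exact mem_filter.2 ⟨a1, k1⟩
        · exact mem_filter.2 ⟨b1, k2⟩
      have h3 := card_le_card hsub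
      rw [card_eq_three.2 ⟨F₀, F₁, F₂, d1, d2, hne, rfl⟩] at h3
      have h5 := hF.two e
      omega
    rcases g3 with h | h | h
    · rw [h] at g2
      exact key _ g2 a2 b2
    · exact absurd h g1
    · rw [h] at g2
      exact key _ g2 e2 f2
  obtain ⟨s, hs1, hs2⟩ := sides h4 hF hx Q (by
    intro F h1 h2 p hp hc h3
    exact (hQm F).2 ⟨h1, h2, p, hp, hc, h3⟩)
  exact ⟨s, hs1.trans hcard, hs2⟩

end Pool.Agent.Lib.SVU
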