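import Pool.Agent.Lib.SVU.Disch6
import Pool.Agent.Lib.SVU.Four
import Pool.Agent.Lib.SVU.Comb
import Pool.Agent.Lib.SVT.Main

/-! # SVU.Main -/

set_option autoImplicit false
set_option linter.unusedSectionVars false

namespace Pool.Agent.Lib.SVU

open Finset Pool.Agent.Lib.SVT

variable {V : Type*} [Fintype V] [DecidableEq V] {G : SimpleGraph V}

theorem seven_two6 (hML : ML (edg G univ)) (hc : Cyc6 G) :
    ∃ φ : V → Finset (Fin 7), (∀ v, (φ v).card = 2) ∧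
      ∀ u v, G.Adj u v → Disjoint (φ u) (φ v) := by
  by_contra hcon
  have hcol : ¬ Col G univ := by
    rintro ⟨φ, h1, h2⟩
    exact hcon ⟨φ, fun v => h1 v (mem_univ v), fun u v h => h2 u (mem_univ u) v (mem_univ v) h⟩
  obtain ⟨W, hW⟩ := exists_min hcol
  have hne : W.Nonempty := by
    rw [nonempty_iff_ne_empty]
    rintro rfl
    exact hW.not_col ⟨fun _ => ∅, by simp, by simp⟩
  obtain ⟨𝓕, hF, hneg⟩ := exists_fam hML hc hne
  have h2 := charge_nonneg6 hW (noC4_of6 hc) (noC5_of6 hc) (noTTT_of6 hc) hF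
  omega

theorem strong6 (hML : ML (edg G univ)) (hc : Cyc6 G) {a b : ℕ} (h : 7 * b ≤ 2 * a) :
    ∃ Φ : V → Finset (Fin a), (∀ v, (Φ v).card = b) ∧ ∀ u v, G.Adj u v → Disjoint (Φ u) (Φ v) := by
  obtain ⟨φ, h1, h2⟩ := seven_two6 hML hc
  obtain ⟨ψ, h3⟩ := four_col hML hc (noC4_of6 hc)
  exact comb φ h1 h2 ψ h3 h

end Pool.Agent.Lib.SVU
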