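import Pool.Agent.Lib.SVU.Flow6
import Pool.Agent.Lib.SVU.LocL
import Pool.Agent.Lib.SVU.LocN
import Pool.Agent.Lib.SVU.LocS

/-!
# SVU.Num6: lower bounds for the charges after the first discharging

Notation for a vertex `x` of degree `d ≥ 4` with `t` triangles: `m = |fr x| = d - 2t` (`fr_card`),
`j = |ones x|`, `s = |stars x| ≤ m - j` (`stars` and `ones` are disjoint subsets of `fr`),
`A = ∑_{n ∈ ones} |low s(x,n)|`, `H = ∑_{n ∈ ones} hh n`.
`rest6_big`: `rest = 28 d - 14 t - 84 + hh x - 14 j + H - 5 s`.  `hh_nonneg`: `hh x ≥ 0`, `H ≥ 0`.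
`loc_one` summed over `ones`: `4 j ≤ H + 2 A`.  `loc_big`: for some `s' ≥ 0`, `A + s' ≤ 2 (m - j)` and
`2 j + 2 t ≤ hh x + A + s'`.

`num0` (t = 0): `d = 4`: the 3-neighbours of `x` are pairwise nonadjacent (`fr_nonadj`), so by `c2`
`j + s ≤ 2` and `rest ≥ 28 - 28`.  `d = 5`: `rest = 56 + hh x - 14 j + H - 5 s`, `s ≤ 5 - j`: `j = 5`:
`A = s' = 0`, `hh x ≥ 10`, `H ≥ 20`; `j = 4`: `A ≤ 2`, `H ≥ 16 - 4`, `56 - 56 - 5 + 12 ≥ 0`; `j ≤ 3`:
`56 - 42 - 10 ≥ 0` and so on.  `d ≥ 6`: `28 d - 84 - 14 d ≥ 0`.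
`num5` (d ≥ 5, t ≥ 1): `rest ≥ 28 d - 14 t - 84 - 14 j - 5 (m - j) + hh x + H`, `d = 2 t + m`.
 t ≥ 3: `42 t + 14 m - 84 ≥ 10 t`.  t = 2, m ≥ 2: `14 m ≥ 20`; t = 2, m = 1: j = 1: `14 + hh x + H`,
 `A = s' = 0`, `hh x ≥ 6`, `H ≥ 4`; j = 0: `28 - 5 ≥ 20`.  t = 1, m ≥ 4: `-42 + 14 m ≥ 10`;
 t = 1, m = 3: j = 3: `hh x + H ≥ 8 + 12`; j = 2: `42 - 28 - 5 + H`, `A ≤ 2`, `H ≥ 8 - 4`; j = 1:
 `42 - 14 - 10`; j = 0: `42 - 15`.
`num4` (d = 4, t = 1, m = 2): `rest = 14 + hh x - 14 j + H - 5 s`.  (a) no free neighbour of degree 3: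
 `j = s = 0`, rest ≥ 14.  (b) at most one free neighbour of degree 3 (`TwoAt` fails): `j + s ≤ 1`:
 j = 0: `≥ 14 - 5`; j = 1, s = 0: `hh x + H`, with `A + s' ≤ 2`, `hh x ≥ 4 - A - s'`, `H ≥ 4 - 2 A`:
 `≥ 8 - 3 A - s' ≥ 2`.  (c) in general rest ≥ 0: j = 0: `14 - 10`; j = 1, s = 1: by `loc_star`
 (`fr \ ones = {u}`, `stars = {u}`) `A + s' ≤ 1`, `hh x + H - 5 ≥ 8 - 3 - 5 = 0`; j = 2: `A = s' = 0`,
 `14 - 28 + hh x + H ≥ -14 + 6 + 8`.
`num2` (d = 4, t = 2): m = 0, j = s = 0: `rest = hh x ≥ 2 t = 4`.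
`numP` (a vertex `v` of type (1,1) with a free neighbour of type (1,1)): `ones v = fr v`, `m = j = 1`,
 `loc_big`: `A = s' = 0`, `hh v ≥ 2 + 2`.
-/

set_option autoImplicit false
set_option linter.unusedSectionVars false

namespace Pool.Agent.Lib.SVU

open Finset Pool.Agent.Lib.SVT

variable {V : Type*} [Fintype V] [DecidableEq V] {G : SimpleGraph V} {W : Finset V}
variable {𝓕 : Finset (Finset (Sym2 V))}

namespace Num6Aux

lemma ones_sub (G : SimpleGraph V) (W : Finset V) (x : V) : ones G W x ⊆ fr G W x := by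
  intro u hu
  exact (mem_ones.1 hu).1

lemma stars_sub (G : SimpleGraph V) (W : Finset V) (x : V) : stars G W x ⊆ fr G W x := by
  intro u hu
  exact (mem_stars.1 hu).1

lemma dis (G : SimpleGraph V) (W : Finset V) (x : V) : Disjoint (ones G W x) (stars G W x) := by
  rw [disjoint_left]
  intro u h1 h2
  have a := (mem_ones.1 h1).2.2
  have b := (mem_stars.1 h2).2.2.1
  omega

lemma js (G : SimpleGraph V) (W : Finset V) (x : V) :
    (ones G W x).card + (stars G W x).card ≤ (fr G W x).card := by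
  rw [← card_union_of_disjoint (dis G W x)]
  exact card_le_card (union_subset (ones_sub G W x) (stars_sub G W x))

lemma H_nonneg (hF : Fam G W 𝓕) (x : V) : 0 ≤ ∑ n ∈ ones G W x, hh 𝓕 G W n :=
  Finset.sum_nonneg fun n _ => hh_nonneg hF n

lemma one_sum (h4 : NoC4 G) (hF : Fam G W 𝓕) {x : V} (hx : x ∈ W) :
    4 * ((ones G W x).card : ℤ) ≤ ∑ n ∈ ones G W x, hh 𝓕 G W n +
      2 * ((∑ n ∈ ones G W x, (low 𝓕 s(x, n)).card : ℕ) : ℤ) := by
  have h1 : ∑ n ∈ ones G W x, (4 : ℤ) ≤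
      ∑ n ∈ ones G W x, (hh 𝓕 G W n + 2 * ((low 𝓕 s(x, n)).card : ℤ)) :=
    Finset.sum_le_sum fun n hn => loc_one h4 hF hx hn
  rw [sum_const, nsmul_eq_mul, sum_add_distrib, ← mul_sum] at h1
  push_cast
  linarith

lemma rest_eq {x : V} (hd : 4 ≤ (nb G W x).card) :
    rest6 𝓕 G W x = 28 * ((nb G W x).card : ℤ) - 14 * ((tr G W x).card : ℤ) - 84 + hh 𝓕 G W x
      - 14 * ((ones G W x).card : ℤ) + ∑ n ∈ ones G W x, hh 𝓕 G W n
      - 5 * ((stars G W x).card : ℤ) := by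
  rw [rest6_big hd, sum_sub_distrib, sum_const, nsmul_eq_mul]
  ring

lemma data (h4 : NoC4 G) (hF : Fam G W 𝓕) {x : V} (hx : x ∈ W) (hd : 4 ≤ (nb G W x).card) :
    ∃ (A s' : ℕ) (H : ℤ), (ones G W x).card + (stars G W x).card ≤ (fr G W x).card ∧
      (fr G W x).card + 2 * (tr G W x).card = (nb G W x).card ∧
      rest6 𝓕 G W x = 28 * ((nb G W x).card : ℤ) - 14 * ((tr G W x).card : ℤ) - 84 + hh 𝓕 G W x
      - 14 * ((ones G W x).card : ℤ) + H - 5 * ((stars G W x).card : ℤ) ∧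
      4 * ((ones G W x).card : ℤ) ≤ H + 2 * (A : ℤ) ∧ 0 ≤ H ∧ 0 ≤ hh 𝓕 G W x ∧
      A + s' + 2 * (ones G W x).card ≤ 2 * (fr G W x).card ∧
      2 * ((ones G W x).card : ℤ) + 2 * ((tr G W x).card : ℤ) ≤ hh 𝓕 G W x + (A : ℤ) + (s' : ℤ) := by
  obtain ⟨s', h1, h2⟩ := loc_big h4 hF hx
  have h3 := card_sdiff_of_subset (ones_sub G W x)
  have h5 := card_le_card (ones_sub G W x)
  refine ⟨_, s', _, js G W x, fr_card h4 hx, rest_eq hd, one_sum h4 hF hx, H_nonneg hF x,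
    hh_nonneg hF x, ?_, h2⟩
  rw [h3] at h1
  omega

end Num6Aux

open Num6Aux

theorem num0 (hm : Min G W) (h4 : NoC4 G) (hF : Fam G W 𝓕) {x : V} (hx : x ∈ W)
    (hd : 4 ≤ (nb G W x).card) (ht : (tr G W x).card = 0) : 0 ≤ rest6 𝓕 G W x := by
  classical
  obtain ⟨A, s', H, h1, h2, h3, h5, h6, h7, h8, h9⟩ := data h4 hF hx hd
  rw [ht] at h2 h3 h9
  rcases Nat.lt_or_ge (nb G W x).card 5 with h | h
  · have hd4 : (nb G W x).card = 4 := by omega
    have hle : (ones G W x).card + (stars G W x).card ≤ 2 := by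
      by_contra hcon
      push Not at hcon
      rw [← card_union_of_disjoint (dis G W x)] at hcon
      obtain ⟨S, hS, hSc⟩ := Finset.exists_subset_card_eq (show 3 ≤ (ones G W x ∪ stars G W x).card by omega)
      obtain ⟨n1, n2, n3, h12, h13, h23, rfl⟩ := card_eq_three.1 hSc
      have key : ∀ n ∈ ({n1, n2, n3} : Finset V), n ∈ fr G W x ∧ (nb G W n).card = 3 := by
        intro n hn
        rcases mem_union.1 (hS hn) with h | h
        · exact ⟨(mem_ones.1 h).1, (mem_ones.1 h).2.1⟩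
        · exact ⟨(mem_stars.1 h).1, (mem_stars.1 h).2.1⟩
      have k1 := key n1 (by simp)
      have k2 := key n2 (by simp)
      have k3 := key n3 (by simp)
      have nn : ∀ n, n ∈ fr G W x → n ∈ nb G W x := fun n hn => (mem_fr.1 hn).1
      exact c2 hm hx hd4 (nn _ k1.1) (nn _ k2.1) (nn _ k3.1) h12 h13 h23
        (fr_nonadj hx k1.1 (nn _ k2.1)) (fr_nonadj hx k1.1 (nn _ k3.1))
        (fr_nonadj hx k2.1 (nn _ k3.1)) k1.2 k2.2 k3.2
    omega
  · omega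

theorem num5 (hm : Min G W) (h4 : NoC4 G) (hF : Fam G W 𝓕) {x : V} (hx : x ∈ W)
    (hd : 5 ≤ (nb G W x).card) (ht : 1 ≤ (tr G W x).card) :
    10 * ((tr G W x).card : ℤ) ≤ rest6 𝓕 G W x := by
  obtain ⟨A, s', H, h1, h2, h3, h5, h6, h7, h8, h9⟩ := data h4 hF hx (by omega)
  rcases Nat.lt_or_ge (tr G W x).card 2 with h | h
  · have ht1 : (tr G W x).card = 1 := by omega
    rw [ht1] at h2 h3 h9 ⊢
    omega
  · rcases Nat.lt_or_ge (tr G W x).card 3 with h' | h'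
    · have ht1 : (tr G W x).card = 2 := by omega
      rw [ht1] at h2 h3 h9 ⊢
      omega
    · omega

namespace Num6Aux

lemma ones_card_zero {x : V} (h : ∀ u ∈ fr G W x, (nb G W u).card ≠ 3) :
    (ones G W x).card = 0 ∧ (stars G W x).card = 0 := by
  constructor
  · rw [card_eq_zero, eq_empty_iff_forall_notMem]
    intro u hu
    exact h u (mem_ones.1 hu).1 (mem_ones.1 hu).2.1
  · rw [card_eq_zero, eq_empty_iff_forall_notMem]
    intro u hu
    exact h u (mem_stars.1 hu).1 (mem_stars.1 hu).2.1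

end Num6Aux

theorem num4a (h4 : NoC4 G) (hF : Fam G W 𝓕) {x : V} (hx : x ∈ W)
    (hd : (nb G W x).card = 4) (ht : (tr G W x).card = 1)
    (h : ∀ u ∈ fr G W x, (nb G W u).card ≠ 3) : 14 ≤ rest6 𝓕 G W x := by
  obtain ⟨A, s', H, h1, h2, h3, h5, h6, h7, h8, h9⟩ := data h4 hF hx (by omega)
  obtain ⟨k1, k2⟩ := ones_card_zero h
  rw [k1, k2, ht, hd] at h3
  omega

theorem num4b (h4 : NoC4 G) (hF : Fam G W 𝓕) {x : V} (hx : x ∈ W)
    (hd : (nb G W x).card = 4) (ht : (tr G W x).card = 1)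
    (h : ∀ u ∈ fr G W x, ∀ u' ∈ fr G W x, (nb G W u).card = 3 → (nb G W u').card = 3 → u = u') :
    2 ≤ rest6 𝓕 G W x := by
  classical
  obtain ⟨A, s', H, h1, h2, h3, h5, h6, h7, h8, h9⟩ := data h4 hF hx (by omega)
  have hle : (ones G W x).card + (stars G W x).card ≤ 1 := by
    rw [← card_union_of_disjoint (dis G W x), card_le_one]
    have key : ∀ n ∈ ones G W x ∪ stars G W x, n ∈ fr G W x ∧ (nb G W n).card = 3 := by
      intro n hn
      rcases mem_union.1 hn with h | h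
      · exact ⟨(mem_ones.1 h).1, (mem_ones.1 h).2.1⟩
      · exact ⟨(mem_stars.1 h).1, (mem_stars.1 h).2.1⟩
    intro a ha b hb
    exact h a (key a ha).1 b (key b hb).1 (key a ha).2 (key b hb).2
  rw [ht, hd] at h2 h3
  rw [ht] at h9
  omega

theorem num4c (hm : Min G W) (h4 : NoC4 G) (hF : Fam G W 𝓕) {x : V} (hx : x ∈ W)
    (hd : (nb G W x).card = 4) (ht : (tr G W x).card = 1) : 0 ≤ rest6 𝓕 G W x := by
  classical
  obtain ⟨A, s', H, h1, h2, h3, h5, h6, h7, h8, h9⟩ := data h4 hF hx (by omega)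
  have hR := rest_eq (𝓕 := 𝓕) (G := G) (W := W) (x := x) (by omega)
  rw [ht, hd] at h2 h3 hR
  rw [ht] at h9
  by_cases hc : (ones G W x).card = 1 ∧ (stars G W x).card = 1
  · obtain ⟨hj, hs⟩ := hc
    obtain ⟨u, hu⟩ := card_eq_one.1 hs
    have huS : u ∈ stars G W x := by rw [hu]; simp
    have hall : fr G W x \ ones G W x = {u} := by
      have hc1 := card_sdiff_of_subset (ones_sub G W x)
      have hsub : ({u} : Finset V) ⊆ fr G W x \ ones G W x := by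
        intro z hz
        rw [mem_singleton] at hz
        rw [hz, mem_sdiff]
        refine ⟨stars_sub G W x huS, fun h => ?_⟩
        exact (disjoint_left.1 (dis G W x)) h huS
      refine (eq_of_subset_of_card_le hsub ?_).symm
      rw [hc1, card_singleton, hj]
      omega
    obtain ⟨s, g1, g2⟩ := loc_star hm h4 hF hx (by omega) huS hall
    have g3 := one_sum h4 hF hx
    have g4 := H_nonneg (G := G) (W := W) hF x
    have g5 := hh_nonneg (G := G) (W := W) hF x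
    rw [ht, hj] at g2
    rw [hj] at g3
    rw [hj, hs] at hR
    generalize ∑ n ∈ ones G W x, (low 𝓕 s(x, n)).card = A' at g1 g2 g3
    generalize ∑ n ∈ ones G W x, hh 𝓕 G W n = H' at g3 g4 hR
    omega
  · omega

theorem num2 (h4 : NoC4 G) (hF : Fam G W 𝓕) {x : V} (hx : x ∈ W)
    (hd : (nb G W x).card = 4) (ht : (tr G W x).card = 2) : 4 ≤ rest6 𝓕 G W x := by
  obtain ⟨A, s', H, h1, h2, h3, h5, h6, h7, h8, h9⟩ := data h4 hF hx (by omega)
  rw [ht, hd] at h2 h3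
  rw [ht] at h9
  omega

theorem numP (h4 : NoC4 G) (hF : Fam G W 𝓕) {v z : V} (hv : v ∈ W) (hd : (nb G W v).card = 3)
    (ht : (tr G W v).card = 1) (hz : z ∈ ones G W v) : 4 ≤ hh 𝓕 G W v := by
  classical
  obtain ⟨s', h1, h2⟩ := loc_big h4 hF hv
  have h3 := card_sdiff_of_subset (ones_sub G W v)
  have h5 := card_le_card (ones_sub G W v)
  have h6 : 0 < (ones G W v).card := card_pos.2 ⟨z, hz⟩
  have h7 := fr_card h4 hv
  rw [h3] at h1
  rw [ht] at h2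
  rw [ht, hd] at h7
  generalize ∑ n ∈ ones G W v, (low 𝓕 s(v, n)).card = A' at h1 h2
  omega

end Pool.Agent.Lib.SVU
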